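import Mathlib

/-! Definitions and task statements for MP_5f0aae_co (enumeration of homeomorphically irreducible
graphs). -/

namespace Pool.Agent.H958R4

open Equiv Finset
open scoped Classical

/-- A graph is homeomorphically irreducible if no point has degree 2. -/
def Irr {V : Type} (G : SimpleGraph V) : Prop := ∀ v, (G.neighborSet v).ncard ≠ 2

/-- Isomorphism of homeomorphically irreducible graphs with points `0,...,p-1` and `q` lines. -/
def isoSetoid (p q : ℕ) : Setoid {G : SimpleGraph (Fin p) // Irr G ∧ G.edgeSet.ncard = q} where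
  r G H := Nonempty (G.1 ≃g H.1)
  iseqv := ⟨fun _ => ⟨SimpleGraph.Iso.refl⟩, fun ⟨e⟩ => ⟨e.symm⟩, fun ⟨e⟩ ⟨f⟩ => ⟨e.trans f⟩⟩

/-- `h p q` is the number of isomorphism classes of homeomorphically irreducible graphs with `p`
points and `q` lines. -/
noncomputable def h (p q : ℕ) : ℕ := Nat.card (Quotient (isoSetoid p q))

/-- the number of cycles (fixed points included) of `α` that meet `Y` -/
noncomputable def ncyc {V : Type} [Fintype V] (α : Perm V) (Y : Finset V) : ℕ :=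
  (Y.image fun v => (univ.filter fun w => α.SameCycle v w)).card

/-- `Y` is a union of cycles of `α` -/
def Inv {V : Type} (α : Perm V) (Y : Finset V) : Prop := ∀ v, v ∈ Y ↔ α v ∈ Y

/-- the standard cycle on `ZMod b` -/
def rot (b : ℕ) : Perm (ZMod b) := Equiv.addRight 1

/-- TASK B1 -/
def TaskCycleExtract : Prop :=
  ∀ (F : ∀ (V : Type) [Fintype V], Perm V → V → Polynomial ℚ)
    (_ : ∀ (V V' : Type) [Fintype V] [Fintype V'] (e : V ≃ V') (α : Perm V) (v : V),
       F V' (e.permCongr α) (e v) = F V α v)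
    (m b : ℕ) [NeZero b],
    (m.factorial : Polynomial ℚ) * ∑ τ : Perm (Fin (b + m)),
        ∑ u ∈ univ.filter (fun u => Function.minimalPeriod τ u = b), F (Fin (b + m)) τ u
     = ((b + m).factorial : Polynomial ℚ) * ∑ τ : Perm (Fin m),
        F (ZMod b ⊕ Fin m) (Equiv.sumCongr (rot b) τ) (Sum.inl 0)

/-- TASK B2 -/
def TaskSplit : Prop :=
  ∀ (F : ∀ (V : Type) [Fintype V], Perm V → Finset V → Polynomial ℚ)
    (_ : ∀ (V V' : Type) [Fintype V] [Fintype V'] (e : V ≃ V') (α : Perm V) (Y : Finset V),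
       F V' (e.permCongr α) (Y.map e.toEmbedding) = F V α Y)
    (p : ℕ),
    ∑ α : Perm (Fin p), ∑ Y ∈ univ.filter (fun Y : Finset (Fin p) => Inv α Y), F (Fin p) α Y
     = ∑ n ∈ range (p + 1), (p.choose n : Polynomial ℚ) *
        ∑ σ : Perm (Fin n), ∑ τ : Perm (Fin (p - n)),
         F (Fin n ⊕ Fin (p - n)) (Equiv.sumCongr σ τ)
          ((univ : Finset (Fin (p - n))).map ⟨Sum.inr, Sum.inr_injective⟩)

/-- `α`-invariant sets of lines of simple graphs on `V` -/
noncomputable def InvE {V : Type} [Fintype V] (α : Perm V) : Finset (Finset (Sym2 V)) :=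
  univ.filter fun E => (∀ e ∈ E, ¬ e.IsDiag) ∧ (∀ e, e ∈ E ↔ Sym2.map α e ∈ E)

/-- degree of `v` in the line set `E` -/
noncomputable def deg {V : Type} (E : Finset (Sym2 V)) (v : V) : ℕ :=
  (E.filter fun e => v ∈ e).card

/-- TASK C1 (Burnside) -/
def TaskBurnside : Prop :=
  ∀ (p q : ℕ), (p.factorial : ℚ) * h p q = ∑ α : Perm (Fin p),
    (((InvE α).filter fun E => E.card = q ∧ ∀ v, deg E v ≠ 2).card : ℚ)

/-- TASK C2 (sieve) -/
def TaskSieve : Prop :=
  ∀ (V : Type) [Fintype V] (α : Perm V) (D : Finset V), Inv α D →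
    ∑ Y ∈ univ.filter (fun Y : Finset V => Y ⊆ D ∧ Inv α Y), (-1 : Polynomial ℚ) ^ ncyc α Y
      = if D = ∅ then 1 else 0

/-- the cycles of the permutation that `σ` induces on the pairs of distinct points -/
noncomputable def pairOrbits {V : Type} [Fintype V] (σ : Perm V) : Finset (Finset (Sym2 V)) :=
  (univ.filter fun e : Sym2 V => ¬ e.IsDiag).image fun e =>
    univ.filter fun f => ∃ k : ℕ, f = Sym2.map (σ ^ k : Perm V) e

/-- the term of `σ` in Polya's formula for all graphs: the cycle index of the pair group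
evaluated at the figure counting series `1 + x` -/
noncomputable def Z {V : Type} [Fintype V] (σ : Perm V) : Polynomial ℚ :=
  ∏ O ∈ pairOrbits σ, (1 + Polynomial.X ^ O.card)

/-- TASK C3 (Polya term) -/
def TaskPolya : Prop :=
  ∀ (V : Type) [Fintype V] (α : Perm V), ∑ E ∈ InvE α, (Polynomial.X : Polynomial ℚ) ^ E.card = Z α

/-! ### power series in `y` over `ℚ[x]` -/

abbrev PS := PowerSeries (Polynomial ℚ)

noncomputable def xx : PS := PowerSeries.C (Polynomial.X : Polynomial ℚ)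
noncomputable def yy : PS := PowerSeries.X
noncomputable def ev (a : ℕ) : PS := if Even a then 1 else 0

/-- `1 / (1 + x^a y^a)` for `a ≥ 1` -/
noncomputable def geo (a : ℕ) : PS :=
  PowerSeries.mk fun n => if a ∣ n then (-1) ^ (n / a) * Polynomial.X ^ n else 0

/-- `log (1 + x^a y^a)` for `a ≥ 1`: the coefficient of `(x y)^(a j)` is `(-1)^(j+1) / j` -/
noncomputable def logS (a : ℕ) : PS :=
  PowerSeries.mk fun n => if a ∣ n ∧ 0 < n then
    ((-1) ^ (n / a + 1) / ((n / a : ℕ) : ℚ)) • Polynomial.X ^ n else 0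

noncomputable def lam (F : ℕ → ℕ) (a : ℕ) : PS :=
  (F a : PS) * xx ^ a + ev a * (xx ^ (a / 2) - xx ^ a * yy ^ (a / 2))

noncomputable def ell (F : ℕ → ℕ) (a : ℕ) : PS :=
  - (1 / 2 : ℚ) • logS a + (1 / (2 * a) : ℚ) • (xx ^ a * yy ^ a)
  + (1 / a : ℚ) • (ev a * xx ^ a * yy ^ a) - (1 / (4 * a) : ℚ) • (xx ^ (2 * a) * yy ^ (2 * a))
  + ((2 * F a - F (2 * a)) / (2 * a) : ℚ) • (xx ^ (2 * a) * yy ^ a)
  - (1 / (2 * a) : ℚ) • (yy ^ a * lam F a ^ 2 * geo a)

/-- the infinite sum of `ell F a` over `a ≥ 1` (`ell F a` is divisible by `y^a`) -/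
noncomputable def L (F : ℕ → ℕ) : PS :=
  PowerSeries.mk fun m => ∑ a ∈ Icc 1 m, PowerSeries.coeff m (ell F a)

/-- `exp f` for a power series `f` without constant term -/
noncomputable def expS (f : PS) : PS :=
  PowerSeries.mk fun m => ∑ k ∈ range (m + 1), (1 / k.factorial : ℚ) • PowerSeries.coeff m (f ^ k)

/-- TASK A (algebra) -/
def TaskAlgebra : Prop :=
  ∀ (F : ℕ → ℕ) (Φ : PS) (T1 T2 U : ℕ → PS)
    (_ : PowerSeries.coeff 0 Φ = 1)
    (_ : ∀ b, 1 ≤ b → T1 b = (F b * xx ^ b + ev b * xx ^ (b / 2)) * Φ - xx ^ b * yy ^ b * T1 b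
        - ev b * xx ^ b * yy ^ (b / 2) * Φ)
    (_ : ∀ b, 1 ≤ b → T2 b = (F b * xx ^ b + ev b * xx ^ (b / 2)) * T1 b + b * xx ^ b * Φ
        - xx ^ b * yy ^ b * T2 b - ev b * xx ^ b * yy ^ (b / 2) * T1 b)
    (_ : ∀ a, 1 ≤ a → 2 * U a = F a * xx ^ a * (T1 a - xx ^ a * Φ)
        + (F (2 * a) - F a) * xx ^ (2 * a) * Φ + ev a * (xx ^ (a / 2) * T1 a - xx ^ a * Φ)
        + (a - 1 - ev a) * xx ^ a * Φ - yy ^ a * (xx ^ a * T2 a - xx ^ (2 * a) * Φ)
        - ev a * yy ^ (a / 2) * xx ^ a * T1 a - yy ^ (2 * a) * xx ^ (2 * a) * T1 (2 * a))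
    (_ : ∀ m : ℕ, (m : Polynomial ℚ) * PowerSeries.coeff m Φ
        = - ∑ a ∈ Icc 1 m, PowerSeries.coeff (m - a) (U a)),
    Φ = expS (L F)

/-- the number of fixed points of `σ ^ a` -/
noncomputable def fixc {V : Type} [Fintype V] (σ : Perm V) (a : ℕ) : ℕ :=
  (univ.filter fun v => (σ ^ a : Perm V) v = v).card

/-- the closed formula for the counting polynomial -/
noncomputable def closed (p : ℕ) : Polynomial ℚ :=
  ∑ n ∈ range (p + 1), (1 / n.factorial : ℚ) • ∑ σ : Perm (Fin n),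
    Z σ * PowerSeries.coeff (p - n) (expS (L (fixc σ)))

end Pool.Agent.H958R4
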