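import Pool.Agent.H958R4.Defs

namespace Pool.Agent.H958R4

open Equiv Finset
open scoped Classical

set_option linter.unusedSectionVars false
set_option linter.unusedSimpArgs false

variable {V V' : Type} [Fintype V] [Fintype V']

/-- the `α`-invariant graphs in which a vertex with state `some k` has degree `k` and in which two
free vertices (state `none`) are not adjacent -/
noncomputable def Gr (α : Perm V) (st : V → Option ℤ) : Finset (Finset (Sym2 V)) :=
  (InvE α).filter fun E => (∀ u v, s(u, v) ∈ E → st u = none → st v = none → False) ∧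
    ∀ v k, st v = some k → (deg E v : ℤ) = k

noncomputable def W (α : Perm V) (st : V → Option ℤ) : Polynomial ℚ :=
  ∑ E ∈ Gr α st, Polynomial.X ^ E.card

theorem mem_Gr {α : Perm V} {st : V → Option ℤ} {E : Finset (Sym2 V)} :
    E ∈ Gr α st ↔ (∀ e ∈ E, ¬ e.IsDiag) ∧ (∀ e, e ∈ E ↔ Sym2.map α e ∈ E) ∧
      (∀ u v, s(u, v) ∈ E → st u = none → st v = none → False) ∧
      ∀ v k, st v = some k → (deg E v : ℤ) = k := by
  simp [Gr, InvE, and_assoc]

theorem mem_sym2Map {ι : V' ↪ V} {E' : Finset (Sym2 V')} {e : Sym2 V} :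
    e ∈ E'.map ι.sym2Map ↔ ∃ e' ∈ E', Sym2.map ι e' = e := by
  simp [Finset.mem_map, Function.Embedding.sym2Map]

theorem deg_map (ι : V' ↪ V) (E' : Finset (Sym2 V')) (v : V') :
    deg (E'.map ι.sym2Map) (ι v) = deg E' v := by
  have hm : ∀ e : Sym2 V', ι v ∈ Sym2.map ι e ↔ v ∈ e := by
    intro e
    rw [Sym2.mem_map]
    constructor
    · rintro ⟨a, ha, h⟩
      rwa [← ι.injective h]
    · intro h
      exact ⟨v, h, rfl⟩
  unfold deg
  rw [Finset.filter_map, Finset.card_map]
  congr 1
  apply Finset.filter_congr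
  intro e _
  exact hm e

theorem deg_map_notin (ι : V' ↪ V) (E' : Finset (Sym2 V')) (v : V) (hv : v ∉ Set.range ι) :
    deg (E'.map ι.sym2Map) v = 0 := by
  unfold deg
  rw [Finset.card_eq_zero, Finset.filter_eq_empty_iff]
  intro e he hve
  obtain ⟨e', -, rfl⟩ := mem_sym2Map.1 he
  obtain ⟨a, -, h⟩ := Sym2.mem_map.1 hve
  exact hv ⟨a, h⟩

theorem deg_pos_of_mem {E : Finset (Sym2 V)} {v : V} {e : Sym2 V} (he : e ∈ E) (hv : v ∈ e) :
    0 < deg E v := Finset.card_pos.2 ⟨e, Finset.mem_filter.2 ⟨he, hv⟩⟩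

theorem W_transport (ι : V' ↪ V) (α : Perm V) (β : Perm V') (st : V → Option ℤ)
    (st' : V' → Option ℤ) (hα : ∀ v, α (ι v) = ι (β v)) (hst : ∀ v, st (ι v) = st' v)
    (h0 : ∀ v, v ∉ Set.range ι → st v = some 0) : W α st = W β st' := by
  have hmap : ∀ e : Sym2 V', Sym2.map α (Sym2.map ι e) = Sym2.map ι (Sym2.map β e) := by
    intro e
    rw [Sym2.map_map, Sym2.map_map]
    exact Sym2.map_congr fun x _ => hα x
  have hβ : ∀ a, α (ι (β.symm a)) = ι a := fun a => by rw [hα]; simp
  have key : ∀ E ∈ Gr α st, (univ.filter fun e => Sym2.map ι e ∈ E).map ι.sym2Map = E := by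
    intro E hE
    rw [mem_Gr] at hE
    ext e
    rw [mem_sym2Map]
    constructor
    · rintro ⟨e', h1, rfl⟩
      exact (Finset.mem_filter.1 h1).2
    · intro he
      induction e using Sym2.ind with
      | _ u v =>
        have hr : ∀ w, w ∈ s(u, v) → w ∈ Set.range ι := by
          intro w hw
          by_contra hcon
          have := hE.2.2.2 w 0 (h0 w hcon)
          have h2 := deg_pos_of_mem he hw
          omega
        obtain ⟨a, ha⟩ := hr u (Sym2.mem_mk_left _ _)
        obtain ⟨b, hb⟩ := hr v (Sym2.mem_mk_right _ _)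
        refine ⟨s(a, b), ?_, by simp [Sym2.map_mk, ha, hb]⟩
        simp [Sym2.map_mk, ha, hb, he]
  unfold W
  symm
  refine Finset.sum_nbij' (fun E' => E'.map ι.sym2Map)
    (fun E => univ.filter fun e => Sym2.map ι e ∈ E) ?_ ?_ ?_ ?_ ?_
  · intro E' hE'
    rw [mem_Gr] at hE' ⊢
    obtain ⟨h1, h2, h3, h4⟩ := hE'
    refine ⟨?_, ?_, ?_, ?_⟩
    · intro e he
      obtain ⟨e', he', rfl⟩ := mem_sym2Map.1 he
      rw [Sym2.isDiag_map ι.injective]
      exact h1 e' he'
    · intro e
      rw [mem_sym2Map, mem_sym2Map]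
      constructor
      · rintro ⟨e', he', rfl⟩
        exact ⟨Sym2.map β e', (h2 e').1 he', (hmap e').symm⟩
      · rintro ⟨e', he', h⟩
        refine ⟨Sym2.map β.symm e', ?_, ?_⟩
        · rw [h2, Sym2.map_map]
          simpa using he'
        · have h5 : Sym2.map α (Sym2.map ι (Sym2.map β.symm e')) = Sym2.map α e := by
            have h6 : Sym2.map β (Sym2.map β.symm e') = e' := by
              rw [Sym2.map_map]
              simp
            rw [hmap, h6, h]
          exact Sym2.map.injective α.injective h5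
    · intro u v huv hu hv
      obtain ⟨e', he', h⟩ := mem_sym2Map.1 huv
      induction e' using Sym2.ind with
      | _ a b =>
        rw [Sym2.map_mk, Sym2.eq_iff] at h
        rcases h with ⟨rfl, rfl⟩ | ⟨rfl, rfl⟩
        · rw [hst] at hu hv
          exact h3 a b he' hu hv
        · rw [hst] at hu hv
          exact h3 a b he' hv hu
    · intro v k hk
      by_cases hv : v ∈ Set.range ι
      · obtain ⟨a, rfl⟩ := hv
        rw [deg_map]
        exact h4 a k (by rw [← hst]; exact hk)
      · rw [deg_map_notin _ _ _ hv]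
        rw [h0 v hv] at hk
        simpa using hk
  · intro E hE
    have hk := key E hE
    rw [mem_Gr] at hE ⊢
    obtain ⟨h1, h2, h3, h4⟩ := hE
    refine ⟨?_, ?_, ?_, ?_⟩
    · intro e he
      have := h1 _ (Finset.mem_filter.1 he).2
      rwa [Sym2.isDiag_map ι.injective] at this
    · intro e
      simp only [Finset.mem_filter, Finset.mem_univ, true_and]
      rw [← hmap, ← h2]
    · intro u v huv hu hv
      simp only [Finset.mem_filter, Finset.mem_univ, true_and, Sym2.map_mk] at huv
      exact h3 _ _ huv (by rw [hst]; exact hu) (by rw [hst]; exact hv)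
    · intro v k hk'
      rw [← deg_map ι, hk]
      exact h4 _ _ (by rw [hst]; exact hk')
  · intro E' _
    ext e
    simp only [Finset.mem_filter, Finset.mem_univ, true_and]
    rw [mem_sym2Map]
    constructor
    · rintro ⟨e', he', h⟩
      rwa [← Sym2.map.injective ι.injective h]
    · intro h
      exact ⟨e, h, rfl⟩
  · intro E hE
    exact key E hE
  · intro E' _
    rw [Finset.card_map]

end Pool.Agent.H958R4
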