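import Pool.Agent.H958R4.G1

namespace Pool.Agent.H958R4

open Equiv Finset
open scoped Classical

set_option linter.unusedSectionVars false
set_option linter.unusedSimpArgs false

variable {V V' : Type} [Fintype V] [Fintype V']

/-- the orbit of a pair -/
noncomputable def orbE (α : Perm V) (e : Sym2 V) : Finset (Sym2 V) :=
  univ.filter fun f => ∃ k : ℕ, f = Sym2.map (α ^ k : Perm V) e

theorem mem_orbE {α : Perm V} {e f : Sym2 V} :
    f ∈ orbE α e ↔ ∃ k : ℕ, f = Sym2.map (α ^ k : Perm V) e := by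
  simp [orbE]

theorem self_mem_orbE (α : Perm V) (e : Sym2 V) : e ∈ orbE α e :=
  mem_orbE.2 ⟨0, by simp⟩

theorem map_pow_succ (α : Perm V) (k : ℕ) (e : Sym2 V) :
    Sym2.map (α ^ (k + 1) : Perm V) e = Sym2.map α (Sym2.map (α ^ k : Perm V) e) := by
  rw [Sym2.map_map, pow_succ']
  rfl

theorem orbE_inv (α : Perm V) (e f : Sym2 V) : f ∈ orbE α e ↔ Sym2.map α f ∈ orbE α e := by
  constructor
  · intro h
    obtain ⟨k, rfl⟩ := mem_orbE.1 h
    exact mem_orbE.2 ⟨k + 1, (map_pow_succ α k e).symm⟩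
  · intro h
    obtain ⟨k, hk⟩ := mem_orbE.1 h
    refine mem_orbE.2 ⟨k + (orderOf α - 1), ?_⟩
    apply Sym2.map.injective α.injective
    rw [hk, ← map_pow_succ]
    have h1 : k + (orderOf α - 1) + 1 = k + orderOf α := by
      have := orderOf_pos α
      omega
    rw [h1, pow_add, pow_orderOf_eq_one, mul_one]

theorem orbE_sub {α : Perm V} {E : Finset (Sym2 V)} (hE : ∀ e, e ∈ E ↔ Sym2.map α e ∈ E)
    {e : Sym2 V} (he : e ∈ E) : orbE α e ⊆ E := by
  intro f hf
  obtain ⟨k, rfl⟩ := mem_orbE.1 hf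
  induction k with
  | zero => simpa using he
  | succ k ih =>
    rw [map_pow_succ, ← hE]
    exact ih (mem_orbE.2 ⟨k, rfl⟩)

theorem orbE_disj {α : Perm V} {E : Finset (Sym2 V)} (hE : ∀ e, e ∈ E ↔ Sym2.map α e ∈ E)
    {e : Sym2 V} (he : e ∉ E) {f : Sym2 V} (hf : f ∈ orbE α e) : f ∉ E := by
  obtain ⟨k, rfl⟩ := mem_orbE.1 hf
  clear hf
  induction k with
  | zero => simpa using he
  | succ k ih =>
    rw [map_pow_succ, ← hE]
    exact ih

/-- sum over the graphs that contain the pair `e` -/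
noncomputable def A (α : Perm V) (st : V → Option ℤ) (e : Sym2 V) : Polynomial ℚ :=
  ∑ E ∈ (Gr α st).filter (fun E => e ∈ E), Polynomial.X ^ E.card

/-- subtract the degrees `δ` from the states -/
def sb (st : V → Option ℤ) (δ : V → ℕ) : V → Option ℤ := fun v => (st v).map fun k => k - δ v

theorem sb_none {st : V → Option ℤ} {δ : V → ℕ} {v : V} : sb st δ v = none ↔ st v = none := by
  simp [sb]

theorem deg_union {E F : Finset (Sym2 V)} (h : Disjoint E F) (v : V) :
    deg (E ∪ F) v = deg E v + deg F v := by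
  unfold deg
  rw [Finset.filter_union, Finset.card_union_of_disjoint]
  exact Finset.disjoint_filter_filter h

theorem rem (α : Perm V) (st : V → Option ℤ) (hst : ∀ v, st (α v) = st v) (a b : V)
    (hab : a ≠ b) (hfree : st a = none → st b = none → False) :
    A α st s(a, b) = Polynomial.X ^ (orbE α s(a, b)).card *
      (W α (sb st (deg (orbE α s(a, b)))) - A α (sb st (deg (orbE α s(a, b)))) s(a, b)) := by
  set O := orbE α s(a, b) with hO
  have hsplit : W α (sb st (deg O)) - A α (sb st (deg O)) s(a, b)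
      = ∑ E ∈ (Gr α (sb st (deg O))).filter (fun E => ¬ s(a, b) ∈ E), Polynomial.X ^ E.card := by
    unfold W A
    rw [← Finset.sum_filter_add_sum_filter_not (Gr α (sb st (deg O))) (fun E => s(a, b) ∈ E)]
    ring
  have hstk : ∀ (k : ℕ) v, st ((α ^ k : Perm V) v) = st v := by
    intro k
    induction k with
    | zero => simp
    | succ k ih => intro v; rw [pow_succ', Perm.mul_apply, hst, ih]
  have hOdiag : ∀ e ∈ O, ¬ e.IsDiag := by
    intro e he
    obtain ⟨k, rfl⟩ := mem_orbE.1 he
    rw [Sym2.isDiag_map (α ^ k : Perm V).injective]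
    simpa using hab
  have hOfree : ∀ u v, s(u, v) ∈ O → st u = none → st v = none → False := by
    intro u v huv hu hv
    obtain ⟨k, hk⟩ := mem_orbE.1 huv
    rw [Sym2.map_mk, Sym2.eq_iff] at hk
    rcases hk with ⟨rfl, rfl⟩ | ⟨rfl, rfl⟩
    · rw [hstk] at hu hv
      exact hfree hu hv
    · rw [hstk] at hu hv
      exact hfree hv hu
  rw [hsplit, Finset.mul_sum]
  unfold A
  refine Finset.sum_nbij' (fun E => E \ O) (fun E => E ∪ O) ?_ ?_ ?_ ?_ ?_
  · intro E hE
    rw [Finset.mem_filter] at hE ⊢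
    obtain ⟨hE, he⟩ := hE
    rw [mem_Gr] at hE ⊢
    obtain ⟨h1, h2, h3, h4⟩ := hE
    have hsub : O ⊆ E := orbE_sub h2 he
    refine ⟨⟨?_, ?_, ?_, ?_⟩, ?_⟩
    · intro e he
      exact h1 e (Finset.mem_sdiff.1 he).1
    · intro e
      rw [Finset.mem_sdiff, Finset.mem_sdiff, ← h2 e, ← orbE_inv]
    · intro u v huv hu hv
      exact h3 u v (Finset.mem_sdiff.1 huv).1 (sb_none.1 hu) (sb_none.1 hv)
    · intro v k hk
      have h5 : deg E v = deg (E \ O) v + deg O v := by
        rw [← deg_union Finset.sdiff_disjoint, Finset.sdiff_union_of_subset hsub]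
      unfold sb at hk
      rw [Option.map_eq_some_iff] at hk
      obtain ⟨k', hk', rfl⟩ := hk
      have := h4 v k' hk'
      rw [h5] at this
      push_cast at this
      linarith
    · rw [Finset.mem_sdiff]
      exact fun h => h.2 (self_mem_orbE _ _)
  · intro E hE
    rw [Finset.mem_filter] at hE ⊢
    obtain ⟨hE, he⟩ := hE
    rw [mem_Gr] at hE ⊢
    obtain ⟨h1, h2, h3, h4⟩ := hE
    have hdis : Disjoint E O := by
      rw [Finset.disjoint_left]
      intro f hf hfO
      exact orbE_disj h2 he hfO hf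
    refine ⟨⟨?_, ?_, ?_, ?_⟩, ?_⟩
    · intro e he
      rcases Finset.mem_union.1 he with h | h
      · exact h1 e h
      · exact hOdiag e h
    · intro e
      rw [Finset.mem_union, Finset.mem_union, ← h2 e, ← orbE_inv]
    · intro u v huv hu hv
      rcases Finset.mem_union.1 huv with h | h
      · exact h3 u v h (sb_none.2 hu) (sb_none.2 hv)
      · exact hOfree u v h hu hv
    · intro v k hk
      rw [deg_union hdis]
      have := h4 v (k - deg O v) (by simp [sb, hk])
      push_cast
      linarith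
    · exact Finset.mem_union_right _ (self_mem_orbE _ _)
  · intro E hE
    rw [Finset.mem_filter, mem_Gr] at hE
    exact Finset.sdiff_union_of_subset (orbE_sub hE.1.2.1 hE.2)
  · intro E hE
    rw [Finset.mem_filter, mem_Gr] at hE
    have hdis : Disjoint E O := by
      rw [Finset.disjoint_left]
      intro f hf hfO
      exact orbE_disj hE.1.2.1 hE.2 hfO hf
    rw [Finset.union_sdiff_right]
    exact Finset.sdiff_eq_self_of_disjoint hdis
  · intro E hE
    rw [Finset.mem_filter, mem_Gr] at hE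
    have hsub : O ⊆ E := orbE_sub hE.1.2.1 hE.2
    rw [← pow_add, Finset.card_sdiff_of_subset hsub]
    congr 1
    have := Finset.card_le_card hsub
    omega

theorem W_neg {α : Perm V} {st : V → Option ℤ} {v : V} {k : ℤ} (h : st v = some k) (hk : k < 0) :
    W α st = 0 := by
  unfold W
  apply Finset.sum_eq_zero
  intro E hE
  rw [mem_Gr] at hE
  have := hE.2.2.2 v k h
  omega

theorem A_zero {α : Perm V} {st : V → Option ℤ} {v : V} {e : Sym2 V} {k : ℤ} (h : st v = some k)
    (hk : k < deg (orbE α e) v) : A α st e = 0 := by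
  unfold A
  apply Finset.sum_eq_zero
  intro E hE
  rw [Finset.mem_filter, mem_Gr] at hE
  exfalso
  have h1 := hE.1.2.2.2 v k h
  have h2 : deg (orbE α e) v ≤ deg E v :=
    Finset.card_le_card (Finset.filter_subset_filter _ (orbE_sub hE.1.2.1 hE.2))
  omega

theorem deg_eq_card {E : Finset (Sym2 V)} (hE : ∀ e ∈ E, ¬ e.IsDiag) (v : V) :
    deg E v = ((univ.erase v).filter fun u => s(v, u) ∈ E).card := by
  unfold deg
  symm
  refine Finset.card_nbij (fun u => s(v, u)) ?_ ?_ ?_
  · intro u hu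
    rw [Finset.mem_coe, Finset.mem_filter] at hu ⊢
    exact ⟨hu.2, Sym2.mem_mk_left _ _⟩
  · intro u _ w _ h
    exact Sym2.congr_right.1 h
  · intro e he
    rw [Finset.mem_coe, Finset.mem_filter] at he
    obtain ⟨u, rfl⟩ := he.2
    refine ⟨u, ?_, rfl⟩
    rw [Finset.mem_coe, Finset.mem_filter, Finset.mem_erase]
    refine ⟨⟨?_, Finset.mem_univ _⟩, he.1⟩
    rintro rfl
    exact hE _ he.1 (by simp)

theorem dbl (α : Perm V) (st : V → Option ℤ) (v : V) (k : ℤ) (h : st v = some k) :
    (k : Polynomial ℚ) * W α st = ∑ u ∈ univ.erase v, A α st s(v, u) := by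
  unfold W A
  simp_rw [Finset.sum_filter]
  rw [Finset.sum_comm, Finset.mul_sum]
  apply Finset.sum_congr rfl
  intro E hE
  rw [mem_Gr] at hE
  rw [← Finset.sum_filter, Finset.sum_const, ← deg_eq_card hE.1, ← hE.2.2.2 v k h]
  simp

end Pool.Agent.H958R4
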