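import Pool.Agent.H958R4.G2

namespace Pool.Agent.H958R4

open Equiv Finset Function
open scoped Classical

set_option linter.unusedSectionVars false
set_option linter.unusedSimpArgs false

variable {V V' : Type} [Fintype V] [Fintype V']

theorem deg_def {V : Type} (E : Finset (Sym2 V)) (v : V)
    [DecidablePred fun e : Sym2 V => v ∈ e] : deg E v = (E.filter fun e => v ∈ e).card := by
  unfold deg
  congr!

theorem deg_inv {α : Perm V} {E : Finset (Sym2 V)} (hE : ∀ e, e ∈ E ↔ Sym2.map α e ∈ E) (v : V) :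
    deg E (α v) = deg E v := by
  unfold deg
  symm
  refine Finset.card_nbij (fun e => Sym2.map α e) ?_ ?_ ?_
  · intro e he
    rw [Finset.mem_coe, Finset.mem_filter] at he ⊢
    exact ⟨(hE e).1 he.1, Sym2.mem_map.2 ⟨v, he.2, rfl⟩⟩
  · intro e _ f _ h
    exact Sym2.map.injective α.injective h
  · intro e he
    rw [Finset.mem_coe, Finset.mem_filter] at he
    have h1 : Sym2.map α (Sym2.map α.symm e) = e := by
      rw [Sym2.map_map]; simp
    refine ⟨Sym2.map α.symm e, ?_, h1⟩
    rw [Finset.mem_coe, Finset.mem_filter]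
    refine ⟨by rw [hE, h1]; exact he.1, ?_⟩
    rw [Sym2.mem_map]
    exact ⟨α v, he.2, by simp⟩

theorem sb_inv {α : Perm V} {st : V → Option ℤ} (hst : ∀ v, st (α v) = st v) (e : Sym2 V) (v : V) :
    sb st (deg (orbE α e)) (α v) = sb st (deg (orbE α e)) v := by
  unfold sb
  rw [hst, deg_inv (orbE_inv α e)]

theorem A1 {α : Perm V} {st : V → Option ℤ} (hst : ∀ v, st (α v) = st v) {a b : V}
    (hab : a ≠ b) (ha : st a = some 1) (hδ : deg (orbE α s(a, b)) a = 1) :
    A α st s(a, b) = Polynomial.X ^ (orbE α s(a, b)).card *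
      W α (sb st (deg (orbE α s(a, b)))) := by
  rw [rem α st hst a b hab (by simp [ha])]
  rw [A_zero (st := sb st (deg (orbE α s(a, b)))) (v := a) (k := 0) (by simp [sb, ha, hδ])
    (by rw [hδ]; norm_num), sub_zero]

theorem A2b {α : Perm V} {st : V → Option ℤ} (hst : ∀ v, st (α v) = st v) {a b : V}
    (hab : a ≠ b) (ha : st a = some 2) (hδ : deg (orbE α s(a, b)) a = 2) :
    A α st s(a, b) = Polynomial.X ^ (orbE α s(a, b)).card *
      W α (sb st (deg (orbE α s(a, b)))) := by
  rw [rem α st hst a b hab (by simp [ha])]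
  rw [A_zero (st := sb st (deg (orbE α s(a, b)))) (v := a) (k := 0) (by simp [sb, ha, hδ])
    (by rw [hδ]; norm_num), sub_zero]

theorem A2a {α : Perm V} {st : V → Option ℤ} (hst : ∀ v, st (α v) = st v) {a b : V}
    (hab : a ≠ b) (ha : st a = some 2) (hδ : deg (orbE α s(a, b)) a = 1) :
    A α st s(a, b) = Polynomial.X ^ (orbE α s(a, b)).card *
      (W α (sb st (deg (orbE α s(a, b)))) - Polynomial.X ^ (orbE α s(a, b)).card *
        W α (sb (sb st (deg (orbE α s(a, b)))) (deg (orbE α s(a, b))))) := by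
  rw [rem α st hst a b hab (by simp [ha])]
  rw [A1 (st := sb st (deg (orbE α s(a, b)))) (sb_inv hst _) hab (by simp [sb, ha, hδ]) hδ]

theorem handshake {E : Finset (Sym2 V)} (hE : ∀ e ∈ E, ¬ e.IsDiag) :
    ∑ v, deg E v = 2 * E.card := by
  unfold deg
  simp_rw [Finset.card_filter]
  rw [Finset.sum_comm]
  rw [Finset.sum_const_nat (m := 2)]
  · ring
  · intro e he
    rw [← Finset.card_filter]
    rw [← Sym2.card_toFinset_of_not_isDiag e (hE e he)]
    congr 1
    ext v
    simp [Sym2.mem_toFinset]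

/-! ### Orbits in `ZMod b ⊕ V'` -/

variable {b : ℕ} [NeZero b]

theorem pow_inl (β : Perm V') (k : ℕ) (i : ZMod b) :
    ((Equiv.sumCongr (rot b) β : Perm (ZMod b ⊕ V')) ^ k) (Sum.inl i) = Sum.inl (i + k) := by
  induction k with
  | zero => simp
  | succ k ih =>
    rw [pow_succ', Perm.mul_apply, ih]
    simp [rot, add_assoc]

theorem pow_inr (β : Perm V') (k : ℕ) (u : V') :
    ((Equiv.sumCongr (rot b) β : Perm (ZMod b ⊕ V')) ^ k) (Sum.inr u) = Sum.inr ((β ^ k) u) := by
  induction k with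
  | zero => simp
  | succ k ih =>
    rw [pow_succ', Perm.mul_apply, ih, pow_succ', Perm.mul_apply]
    simp

theorem mp_pos (β : Perm V') (u : V') : 0 < minimalPeriod β u := by
  apply IsPeriodicPt.minimalPeriod_pos (orderOf_pos β)
  unfold IsPeriodicPt IsFixedPt
  rw [← Perm.coe_pow, pow_orderOf_eq_one]
  rfl

theorem pow_eq_pow_iff_mod (β : Perm V') (u : V') (i j : ℕ) :
    (β ^ i) u = (β ^ j) u ↔ i ≡ j [MOD minimalPeriod β u] := by
  have hp := mp_pos β u
  rw [Perm.coe_pow, Perm.coe_pow, ← iterate_mod_minimalPeriod_eq (n := i),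
    ← iterate_mod_minimalPeriod_eq (n := j)]
  rw [iterate_eq_iterate_iff_of_lt_minimalPeriod (Nat.mod_lt _ hp) (Nat.mod_lt _ hp)]
  rfl

theorem modEq_lcm {b c i j : ℕ} : i ≡ j [MOD Nat.lcm b c] ↔ i ≡ j [MOD b] ∧ i ≡ j [MOD c] := by
  rw [Nat.modEq_iff_dvd, Nat.modEq_iff_dvd, Nat.modEq_iff_dvd]
  constructor
  · intro h
    exact ⟨dvd_trans (by exact_mod_cast Nat.dvd_lcm_left b c) h,
      dvd_trans (by exact_mod_cast Nat.dvd_lcm_right b c) h⟩
  · rintro ⟨h1, h2⟩
    have := Int.coe_lcm_dvd h1 h2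
    simpa [Int.lcm] using this

/-- the `k`-th translate of `{0, u}` -/
def cr (β : Perm V') (u : V') (k : ℕ) : Sym2 (ZMod b ⊕ V') :=
  s(Sum.inl (k : ZMod b), Sum.inr ((β ^ k) u))

theorem cr_eq_iff (β : Perm V') (u : V') (i j : ℕ) :
    (cr β u i : Sym2 (ZMod b ⊕ V')) = cr β u j ↔ i ≡ j [MOD Nat.lcm b (minimalPeriod β u)] := by
  unfold cr
  rw [modEq_lcm, ← pow_eq_pow_iff_mod, ← ZMod.natCast_eq_natCast_iff, Sym2.eq_iff]
  simp

theorem orb_cross (β : Perm V') (u : V') :
    orbE (Equiv.sumCongr (rot b) β : Perm (ZMod b ⊕ V')) s(Sum.inl 0, Sum.inr u)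
      = (range (Nat.lcm b (minimalPeriod β u))).image (cr β u) := by
  have hpos : 0 < Nat.lcm b (minimalPeriod β u) := Nat.lcm_pos (NeZero.pos b) (mp_pos β u)
  ext f
  rw [mem_orbE, Finset.mem_image]
  have h1 : ∀ k : ℕ, Sym2.map ((Equiv.sumCongr (rot b) β : Perm (ZMod b ⊕ V')) ^ k : Perm _)
      s(Sum.inl 0, Sum.inr u) = cr β u k := by
    intro k
    rw [Sym2.map_mk, pow_inl, pow_inr, zero_add, cr]
  constructor
  · rintro ⟨k, rfl⟩
    refine ⟨k % Nat.lcm b (minimalPeriod β u), Finset.mem_range.2 (Nat.mod_lt _ hpos), ?_⟩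
    rw [h1, cr_eq_iff]
    exact Nat.mod_modEq _ _
  · rintro ⟨k, -, rfl⟩
    exact ⟨k, (h1 k).symm⟩

theorem cr_injOn (β : Perm V') (u : V') :
    Set.InjOn (cr β u : ℕ → Sym2 (ZMod b ⊕ V')) (range (Nat.lcm b (minimalPeriod β u))) := by
  intro i hi j hj h
  rw [cr_eq_iff] at h
  rw [Finset.mem_coe, Finset.mem_range] at hi hj
  exact Nat.ModEq.eq_of_lt_of_lt h hi hj

theorem orb_cross_card (β : Perm V') (u : V') :
    (orbE (Equiv.sumCongr (rot b) β : Perm (ZMod b ⊕ V')) s(Sum.inl 0, Sum.inr u)).card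
      = Nat.lcm b (minimalPeriod β u) := by
  rw [orb_cross, Finset.card_image_of_injOn (cr_injOn β u), Finset.card_range]

theorem count_mod {l r : ℕ} (t : ℕ) (hr : 0 < r) (h : r ∣ l) :
    ((range l).filter fun k => k ≡ t [MOD r]).card = l / r := by
  have := Nat.count_modEq_card l hr t
  rw [Nat.count_eq_card_filter_range] at this
  rw [Nat.mod_eq_zero_of_dvd h] at this
  simpa using this

theorem deg_cross_inl (β : Perm V') (u : V') (i : ZMod b) :
    deg (orbE (Equiv.sumCongr (rot b) β : Perm (ZMod b ⊕ V')) s(Sum.inl 0, Sum.inr u)) (Sum.inl i)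
      = Nat.lcm b (minimalPeriod β u) / b := by
  rw [orb_cross]
  rw [deg_def]
  rw [Finset.filter_image, Finset.card_image_of_injOn
    ((cr_injOn β u).mono (by intro x hx; exact Finset.filter_subset _ _ hx))]
  rw [← count_mod i.val (NeZero.pos b) (Nat.dvd_lcm_left b (minimalPeriod β u))]
  congr 1
  apply Finset.filter_congr
  intro k _
  rw [← ZMod.natCast_eq_natCast_iff, ZMod.natCast_zmod_val]
  unfold cr
  rw [Sym2.mem_iff]
  simp [eq_comm]

theorem deg_cross_inr (β : Perm V') (u w : V') :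
    deg (orbE (Equiv.sumCongr (rot b) β : Perm (ZMod b ⊕ V')) s(Sum.inl 0, Sum.inr u)) (Sum.inr w)
      = if β.SameCycle u w then Nat.lcm b (minimalPeriod β u) / minimalPeriod β u else 0 := by
  rw [orb_cross]
  rw [deg_def]
  rw [Finset.filter_image, Finset.card_image_of_injOn
    ((cr_injOn β u).mono (by intro x hx; exact Finset.filter_subset _ _ hx))]
  have hm : ∀ k : ℕ, Sum.inr w ∈ (cr β u k : Sym2 (ZMod b ⊕ V')) ↔ (β ^ k) u = w := by
    intro k
    unfold cr
    rw [Sym2.mem_iff]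
    simp [eq_comm]
  simp_rw [hm]
  split_ifs with hs
  · obtain ⟨t, ht⟩ := hs.exists_nat_pow_eq
    rw [← count_mod t (mp_pos β u) (Nat.dvd_lcm_right b (minimalPeriod β u))]
    congr 1
    apply Finset.filter_congr
    intro k _
    rw [← ht, pow_eq_pow_iff_mod]
  · rw [Finset.card_eq_zero, Finset.filter_eq_empty_iff]
    intro k _ h
    exact hs ⟨k, by simpa using h⟩

/-- the translate of `{0, j}` by `i` -/
def inn (V' : Type) (j i : ZMod b) : Sym2 (ZMod b ⊕ V') := s(Sum.inl i, Sum.inl (i + j))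

theorem orb_inner (β : Perm V') (j : ZMod b) :
    orbE (Equiv.sumCongr (rot b) β : Perm (ZMod b ⊕ V')) s(Sum.inl 0, Sum.inl j)
      = univ.image (inn V' j) := by
  ext f
  rw [mem_orbE, Finset.mem_image]
  have h1 : ∀ k : ℕ, Sym2.map ((Equiv.sumCongr (rot b) β : Perm (ZMod b ⊕ V')) ^ k : Perm _)
      s(Sum.inl 0, Sum.inl j) = inn V' j (k : ZMod b) := by
    intro k
    rw [Sym2.map_mk, pow_inl, pow_inl, zero_add, inn, add_comm j]
  constructor
  · rintro ⟨k, rfl⟩
    exact ⟨k, Finset.mem_univ _, (h1 k).symm⟩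
  · rintro ⟨i, -, rfl⟩
    refine ⟨i.val, ?_⟩
    rw [h1, ZMod.natCast_zmod_val]

theorem inner_filter (j i : ZMod b) :
    (univ.image (inn V' j)).filter (fun e => Sum.inl i ∈ e)
      = {inn V' j i, inn V' j (i - j)} := by
  ext e
  rw [Finset.mem_filter, Finset.mem_image, Finset.mem_insert, Finset.mem_singleton]
  constructor
  · rintro ⟨⟨k, -, rfl⟩, h⟩
    unfold inn at h
    rw [Sym2.mem_iff] at h
    rcases h with h | h
    · left
      rw [Sum.inl.inj h]
    · right
      have := Sum.inl.inj h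
      rw [this]
      congr 1
      ring
  · rintro (rfl | rfl)
    · exact ⟨⟨i, Finset.mem_univ _, rfl⟩, by simp [inn]⟩
    · exact ⟨⟨i - j, Finset.mem_univ _, rfl⟩, by simp [inn]⟩

theorem deg_inner_inr (β : Perm V') (j : ZMod b) (w : V') :
    deg (orbE (Equiv.sumCongr (rot b) β : Perm (ZMod b ⊕ V')) s(Sum.inl 0, Sum.inl j)) (Sum.inr w)
      = 0 := by
  rw [orb_inner]
  rw [deg_def]
  rw [Finset.card_eq_zero, Finset.filter_eq_empty_iff]
  intro e he hw
  obtain ⟨i, -, rfl⟩ := Finset.mem_image.1 he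
  unfold inn at hw
  rw [Sym2.mem_iff] at hw
  simp at hw

theorem deg_inner_inl (β : Perm V') (j i : ZMod b) (hj : j ≠ 0) :
    deg (orbE (Equiv.sumCongr (rot b) β : Perm (ZMod b ⊕ V')) s(Sum.inl 0, Sum.inl j)) (Sum.inl i)
      = if j + j = 0 then 1 else 2 := by
  rw [orb_inner]
  rw [deg_def]
  rw [inner_filter]
  have hiff : inn V' j i = inn V' j (i - j) ↔ j + j = 0 := by
    unfold inn
    rw [Sym2.eq_iff]
    simp only [Sum.inl.injEq]
    constructor
    · rintro (⟨h, -⟩ | ⟨-, h⟩)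
      · exact absurd (by linear_combination h) hj
      · linear_combination h
    · intro h
      right
      exact ⟨by ring, by linear_combination h⟩
  split_ifs with h
  · rw [hiff.2 h]
    simp
  · rw [Finset.card_pair]
    intro h'
    exact h (hiff.1 h')

theorem inner_nodiag (β : Perm V') (j : ZMod b) (hj : j ≠ 0) :
    ∀ e ∈ orbE (Equiv.sumCongr (rot b) β : Perm (ZMod b ⊕ V')) s(Sum.inl 0, Sum.inl j),
      ¬ e.IsDiag := by
  intro e he
  rw [orb_inner] at he
  obtain ⟨i, -, rfl⟩ := Finset.mem_image.1 he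
  unfold inn
  rw [Sym2.mk_isDiag_iff]
  intro h
  exact hj (by have := Sum.inl.inj h; linear_combination -this)

theorem orb_inner_card (β : Perm V') (j : ZMod b) (hj : j ≠ 0) :
    2 * (orbE (Equiv.sumCongr (rot b) β : Perm (ZMod b ⊕ V')) s(Sum.inl 0, Sum.inl j)).card
      = if j + j = 0 then b else 2 * b := by
  rw [← handshake (inner_nodiag β j hj), Fintype.sum_sum_type]
  simp only [deg_inner_inr, deg_inner_inl β j _ hj, Finset.sum_const_zero, add_zero,
    Finset.sum_const, Finset.card_univ, ZMod.card, smul_eq_mul]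
  split_ifs <;> ring

theorem card_half (b : ℕ) [NeZero b] :
    ((univ.erase (0 : ZMod b)).filter fun j => j + j = 0).card = if Even b then 1 else 0 := by
  have key : ∀ j : ZMod b, j ≠ 0 → (j + j = 0 ↔ 2 * j.val = b) := by
    intro j hj
    have h1 : (j + j = 0) ↔ (b ∣ 2 * j.val) := by
      rw [← ZMod.natCast_eq_zero_iff]
      push_cast
      rw [ZMod.natCast_zmod_val, two_mul]
    rw [h1]
    have hlt := ZMod.val_lt j
    have hpos : 0 < j.val := Nat.pos_of_ne_zero (fun h => hj ((ZMod.val_eq_zero j).1 h))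
    constructor
    · rintro ⟨k, hk⟩
      have hk1 : k = 1 := by
        have h2 : b * k < b * 2 := by rw [← hk]; omega
        have h3 : k < 2 := Nat.lt_of_mul_lt_mul_left h2
        interval_cases k
        · omega
        · rfl
      rw [hk, hk1, mul_one]
    · intro h
      rw [h]
  split_ifs with he
  · obtain ⟨c, hc⟩ := he
    have hb := NeZero.pos b
    rw [Finset.card_eq_one]
    refine ⟨(c : ZMod b), ?_⟩
    have hcb : c < b := by omega
    have hval : ((c : ℕ) : ZMod b).val = c := ZMod.val_natCast_of_lt hcb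
    have hc0 : ((c : ℕ) : ZMod b) ≠ 0 := by
      intro h
      have := congrArg ZMod.val h
      rw [hval, ZMod.val_zero] at this
      omega
    ext j
    rw [Finset.mem_filter, Finset.mem_erase, Finset.mem_singleton]
    constructor
    · rintro ⟨⟨hj, -⟩, h⟩
      rw [key j hj] at h
      apply ZMod.val_injective
      rw [hval]
      omega
    · rintro rfl
      refine ⟨⟨hc0, Finset.mem_univ _⟩, ?_⟩
      rw [key _ hc0, hval]
      omega
  · rw [Finset.card_eq_zero, Finset.filter_eq_empty_iff]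
    intro j hj h
    rw [key j (Finset.ne_of_mem_erase hj)] at h
    exact he ⟨j.val, by omega⟩

end Pool.Agent.H958R4
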