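import Pool.Agent.H958R4.G3

namespace Pool.Agent.H958R4

open Equiv Finset Function
open scoped Classical

set_option linter.unusedSectionVars false
set_option linter.unusedSimpArgs false

variable {V' : Type} [Fintype V'] {b : ℕ} [NeZero b]

/-- degrees removed around the cycle of `u` -/
noncomputable def dl (β : Perm V') (u : V') (l : ℕ) : V' → ℕ :=
  fun w => if β.SameCycle u w then l / minimalPeriod β u else 0

/-- state of `ZMod b ⊕ V'`: constant `k` on the standard cycle -/
def el (b : ℕ) (k : ℤ) (st' : V' → Option ℤ) : ZMod b ⊕ V' → Option ℤ :=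
  Sum.elim (fun _ => some k) st'

theorem el_inv (β : Perm V') (k : ℤ) {st' : V' → Option ℤ} (h : ∀ v, st' (β v) = st' v)
    (v : ZMod b ⊕ V') :
    el b k st' ((Equiv.sumCongr (rot b) β : Perm (ZMod b ⊕ V')) v) = el b k st' v := by
  rcases v with i | w
  · rfl
  · exact h w

theorem W_el0 (β : Perm V') (st' : V' → Option ℤ) :
    W (Equiv.sumCongr (rot b) β : Perm (ZMod b ⊕ V')) (el b 0 st') = W β st' := by
  apply W_transport ⟨Sum.inr, Sum.inr_injective⟩
  · intro v; rfl
  · intro v; rfl
  · intro v hv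
    rcases v with i | w
    · rfl
    · exact absurd ⟨w, rfl⟩ hv

theorem sb_cross (β : Perm V') (u : V') (k : ℤ) (st' : V' → Option ℤ) :
    sb (el b k st') (deg (orbE (Equiv.sumCongr (rot b) β : Perm (ZMod b ⊕ V'))
      s(Sum.inl 0, Sum.inr u)))
      = el b (k - (Nat.lcm b (minimalPeriod β u) / b : ℕ))
          (sb st' (dl β u (Nat.lcm b (minimalPeriod β u)))) := by
  funext v
  rcases v with i | w
  · simp only [sb, el, Sum.elim_inl, Option.map_some, deg_cross_inl]
  · simp only [sb, el, Sum.elim_inr, deg_cross_inr, dl]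

theorem sb_inner (β : Perm V') (j : ZMod b) (hj : j ≠ 0) (k : ℤ) (st' : V' → Option ℤ) :
    sb (el b k st') (deg (orbE (Equiv.sumCongr (rot b) β : Perm (ZMod b ⊕ V'))
      s(Sum.inl 0, Sum.inl j)))
      = el b (k - (if j + j = 0 then 1 else 2)) st' := by
  funext v
  rcases v with i | w
  · simp only [sb, el, Sum.elim_inl, Option.map_some, deg_inner_inl β j i hj]
    split_ifs <;> rfl
  · simp only [sb, el, Sum.elim_inr, deg_inner_inr]
    simp

theorem dbl' {V : Type} [Fintype V] [inst : DecidableEq V] (α : Perm V) (st : V → Option ℤ) (v : V)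
    (k : ℤ) (h : st v = some k) :
    (k : Polynomial ℚ) * W α st = ∑ u ∈ univ.erase v, A α st s(v, u) := by
  have h0 : inst = (fun a b => Classical.propDecidable (a = b)) := Subsingleton.elim _ _
  subst h0
  exact dbl α st v k h

theorem sum_erase_inl (f : ZMod b ⊕ V' → Polynomial ℚ) :
    ∑ v ∈ univ.erase (Sum.inl 0), f v = ∑ j ∈ univ.erase (0 : ZMod b), f (Sum.inl j)
      + ∑ u, f (Sum.inr u) := by
  rw [Finset.sum_erase_eq_sub (Finset.mem_univ _), Finset.sum_erase_eq_sub (Finset.mem_univ _),
    Fintype.sum_sum_type]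
  ring

theorem lcm_div_ge {b c : ℕ} (hb : 0 < b) (hc : 0 < c) (h : ¬ c ∣ b) : 2 ≤ Nat.lcm b c / b := by
  obtain ⟨k, hk⟩ := Nat.dvd_lcm_left b c
  have hpos : 0 < Nat.lcm b c := Nat.lcm_pos hb hc
  rw [hk, Nat.mul_div_cancel_left _ hb]
  rcases k with _ | _ | k
  · simp at hk; omega
  · exfalso
    apply h
    have := Nat.dvd_lcm_right b c
    rw [hk] at this
    simpa using this
  · omega

/-- sum of `A` over the inner pairs, state 1 -/
theorem inner1 (β : Perm V') (st' : V' → Option ℤ) (hst : ∀ v, st' (β v) = st' v) :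
    ∑ j ∈ univ.erase (0 : ZMod b), A (Equiv.sumCongr (rot b) β : Perm (ZMod b ⊕ V'))
      (el b 1 st') s(Sum.inl 0, Sum.inl j)
      = if Even b then Polynomial.X ^ (b / 2) * W β st' else 0 := by
  have h1 : ∀ j ∈ univ.erase (0 : ZMod b), A (Equiv.sumCongr (rot b) β : Perm (ZMod b ⊕ V'))
      (el b 1 st') s(Sum.inl 0, Sum.inl j)
      = if j + j = 0 then Polynomial.X ^ (b / 2) * W β st' else 0 := by
    intro j hj
    have hj0 : j ≠ 0 := Finset.ne_of_mem_erase hj
    have hne : (Sum.inl 0 : ZMod b ⊕ V') ≠ Sum.inl j := by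
      intro h
      exact hj0 (Sum.inl.inj h).symm
    have hcard := orb_inner_card (b := b) β j hj0
    split_ifs with hjj
    · rw [if_pos hjj] at hcard
      rw [A1 (el_inv β 1 hst) hne rfl (by rw [deg_inner_inl β j 0 hj0, if_pos hjj]),
        sb_inner β j hj0, if_pos hjj]
      have : (orbE (Equiv.sumCongr (rot b) β : Perm (ZMod b ⊕ V'))
        s(Sum.inl 0, Sum.inl j)).card = b / 2 := by omega
      rw [this, sub_self, W_el0]
    · apply A_zero (v := Sum.inl 0) (k := 1) rfl
      rw [deg_inner_inl β j 0 hj0, if_neg hjj]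
      norm_num
  rw [Finset.sum_congr rfl h1, ← Finset.sum_filter, Finset.sum_const, card_half]
  split_ifs <;> simp

theorem R1g (β : Perm V') (st' : V' → Option ℤ) (hst : ∀ v, st' (β v) = st' v) :
    W (Equiv.sumCongr (rot b) β : Perm (ZMod b ⊕ V')) (el b 1 st')
      = (if Even b then Polynomial.X ^ (b / 2) * W β st' else 0) +
        ∑ u : V', if minimalPeriod β u ∣ b then
          Polynomial.X ^ b * W β (sb st' (dl β u b)) else 0 := by
  have h := dbl' (Equiv.sumCongr (rot b) β : Perm (ZMod b ⊕ V')) (el b 1 st') (Sum.inl 0) 1 rfl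
  rw [Int.cast_one, one_mul] at h
  rw [h, sum_erase_inl, inner1 β st' hst]
  congr 1
  apply Finset.sum_congr rfl
  intro u _
  have hne : (Sum.inl 0 : ZMod b ⊕ V') ≠ Sum.inr u := by simp
  have hb := NeZero.pos b
  split_ifs with hc
  · have hl : Nat.lcm b (minimalPeriod β u) = b := Nat.lcm_eq_left hc
    rw [A1 (el_inv β 1 hst) hne rfl
      (by rw [deg_cross_inl, hl, Nat.div_self hb]), sb_cross, orb_cross_card, hl, Nat.div_self hb]
    simp only [Nat.cast_one, sub_self]
    rw [W_el0]
  · apply A_zero (v := Sum.inl 0) (k := 1) rfl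
    rw [deg_cross_inl]
    have := lcm_div_ge hb (mp_pos β u) hc
    omega

/-- sum of `A` over the inner pairs, state 2 -/
theorem inner2 (β : Perm V') (st' : V' → Option ℤ) (hst : ∀ v, st' (β v) = st' v) :
    ∑ j ∈ univ.erase (0 : ZMod b), A (Equiv.sumCongr (rot b) β : Perm (ZMod b ⊕ V'))
      (el b 2 st') s(Sum.inl 0, Sum.inl j)
      = (if Even b then Polynomial.X ^ (b / 2) *
            W (Equiv.sumCongr (rot b) β : Perm (ZMod b ⊕ V')) (el b 1 st')
            - Polynomial.X ^ b * W β st' else 0)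
        + ((b : Polynomial ℚ) - 1 - (if Even b then 1 else 0)) * Polynomial.X ^ b * W β st' := by
  have h1 : ∀ j ∈ univ.erase (0 : ZMod b), A (Equiv.sumCongr (rot b) β : Perm (ZMod b ⊕ V'))
      (el b 2 st') s(Sum.inl 0, Sum.inl j)
      = (if j + j = 0 then (Polynomial.X ^ (b / 2) *
            W (Equiv.sumCongr (rot b) β : Perm (ZMod b ⊕ V')) (el b 1 st')
            - Polynomial.X ^ b * W β st') else 0)
        + (if ¬ (j + j = 0) then Polynomial.X ^ b * W β st' else 0) := by
    intro j hj
    have hj0 : j ≠ 0 := Finset.ne_of_mem_erase hj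
    have hne : (Sum.inl 0 : ZMod b ⊕ V') ≠ Sum.inl j := by
      intro h
      exact hj0 (Sum.inl.inj h).symm
    have hcard := orb_inner_card (b := b) β j hj0
    by_cases hjj : j + j = 0
    · rw [if_pos hjj] at hcard
      rw [A2a (el_inv β 2 hst) hne rfl (by rw [deg_inner_inl β j 0 hj0, if_pos hjj]),
        sb_inner β j hj0, sb_inner β j hj0]
      simp only [hjj, if_true, not_true, if_false, add_zero]
      have h2 : (orbE (Equiv.sumCongr (rot b) β : Perm (ZMod b ⊕ V'))
        s(Sum.inl 0, Sum.inl j)).card = b / 2 := by omega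
      have h3 : b / 2 + b / 2 = b := by omega
      have h4 : (2 : ℤ) - 1 = 1 := by norm_num
      rw [h2, h4, sub_self, W_el0, mul_sub, ← mul_assoc, ← pow_add, h3]
    · rw [if_neg hjj] at hcard
      rw [A2b (el_inv β 2 hst) hne rfl (by rw [deg_inner_inl β j 0 hj0, if_neg hjj]),
        sb_inner β j hj0]
      simp only [hjj, if_false, not_false_iff, if_true, zero_add]
      have h2 : (orbE (Equiv.sumCongr (rot b) β : Perm (ZMod b ⊕ V'))
        s(Sum.inl 0, Sum.inl j)).card = b := by omega
      rw [h2, sub_self, W_el0]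
  have hcount : (((univ.erase (0 : ZMod b)).filter fun j => ¬ (j + j = 0)).card : Polynomial ℚ)
      = (b : Polynomial ℚ) - 1 - (if Even b then 1 else 0) := by
    have h5 := Finset.card_filter_add_card_filter_not (s := univ.erase (0 : ZMod b))
      (fun j => j + j = 0)
    rw [card_half, Finset.card_erase_of_mem (Finset.mem_univ _), Finset.card_univ, ZMod.card] at h5
    have hb := NeZero.pos b
    have h6 : (if Even b then 1 else 0) + ((univ.erase (0 : ZMod b)).filter
      fun j => ¬ (j + j = 0)).card + 1 = b := by omega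
    have h7 := congrArg (Nat.cast : ℕ → Polynomial ℚ) h6
    push_cast at h7
    rw [← h7]
    ring
  rw [Finset.sum_congr rfl h1, Finset.sum_add_distrib, ← Finset.sum_filter, ← Finset.sum_filter,
    Finset.sum_const, Finset.sum_const, card_half, nsmul_eq_mul, nsmul_eq_mul, hcount]
  split_ifs <;> push_cast <;> ring

theorem R2g (β : Perm V') (st' : V' → Option ℤ) (hst : ∀ v, st' (β v) = st' v) :
    2 * W (Equiv.sumCongr (rot b) β : Perm (ZMod b ⊕ V')) (el b 2 st')
      = (if Even b then Polynomial.X ^ (b / 2) *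
            W (Equiv.sumCongr (rot b) β : Perm (ZMod b ⊕ V')) (el b 1 st')
            - Polynomial.X ^ b * W β st' else 0)
        + ((b : Polynomial ℚ) - 1 - (if Even b then 1 else 0)) * Polynomial.X ^ b * W β st'
        + ∑ u : V', ((if minimalPeriod β u ∣ b then Polynomial.X ^ b *
            (W (Equiv.sumCongr (rot b) β : Perm (ZMod b ⊕ V')) (el b 1 (sb st' (dl β u b)))
              - Polynomial.X ^ b * W β (sb (sb st' (dl β u b)) (dl β u b))) else 0)
          + (if Nat.lcm b (minimalPeriod β u) = 2 * b then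
              Polynomial.X ^ (2 * b) * W β (sb st' (dl β u (2 * b))) else 0)) := by
  have h := dbl' (Equiv.sumCongr (rot b) β : Perm (ZMod b ⊕ V')) (el b 2 st') (Sum.inl 0) 2 rfl
  have h22 : ((2 : ℤ) : Polynomial ℚ) = 2 := by norm_num
  rw [h22] at h
  rw [h, sum_erase_inl, inner2 β st' hst]
  congr 1
  apply Finset.sum_congr rfl
  intro u _
  have hne : (Sum.inl 0 : ZMod b ⊕ V') ≠ Sum.inr u := by simp
  have hb := NeZero.pos b
  by_cases hc : minimalPeriod β u ∣ b
  · have hl : Nat.lcm b (minimalPeriod β u) = b := Nat.lcm_eq_left hc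
    have hl2 : Nat.lcm b (minimalPeriod β u) ≠ 2 * b := by omega
    rw [if_pos hc, if_neg hl2, add_zero]
    rw [A2a (el_inv β 2 hst) hne rfl
      (by rw [deg_cross_inl, hl, Nat.div_self hb]), sb_cross, sb_cross, orb_cross_card, hl,
      Nat.div_self hb]
    simp only [Nat.cast_one]
    have h4 : (2 : ℤ) - 1 = 1 := by norm_num
    rw [h4, sub_self, W_el0]
  · rw [if_neg hc, zero_add]
    split_ifs with hl
    · have h2b : 2 * b / b = 2 := Nat.mul_div_cancel _ hb
      rw [A2b (el_inv β 2 hst) hne rfl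
        (by rw [deg_cross_inl, hl, h2b]), sb_cross, orb_cross_card, hl, h2b]
      simp only [Nat.cast_ofNat, sub_self]
      rw [W_el0]
    · apply A_zero (v := Sum.inl 0) (k := 2) rfl
      rw [deg_cross_inl]
      have h3 := lcm_div_ge hb (mp_pos β u) hc
      obtain ⟨k, hk⟩ := Nat.dvd_lcm_left b (minimalPeriod β u)
      rw [hk, Nat.mul_div_cancel_left _ hb] at h3 ⊢
      have : k ≠ 2 := by
        rintro rfl
        apply hl
        rw [hk]; ring
      omega

end Pool.Agent.H958R4
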