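import Pool.Agent.H958R4.G4

namespace Pool.Agent.H958R4

open Equiv Finset Function
open scoped Classical

set_option linter.unusedSectionVars false
set_option linter.unusedSimpArgs false

section emb

variable {V V' : Type} [Fintype V] [Fintype V'] {α : Perm V} {β : Perm V'}

theorem pow_map (ι : V' ↪ V) (h : ∀ v, α (ι v) = ι (β v)) (k : ℕ) (v : V') :
    (α ^ k) (ι v) = ι ((β ^ k) v) := by
  induction k with
  | zero => rfl
  | succ k ih => rw [pow_succ', Perm.mul_apply, ih, h, pow_succ', Perm.mul_apply]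

theorem sameCycle_iff (v w : V) : α.SameCycle v w ↔ ∃ k : ℕ, (α ^ k) v = w := by
  constructor
  · intro h
    exact h.exists_nat_pow_eq
  · rintro ⟨k, hk⟩
    exact ⟨k, by simpa using hk⟩

theorem sameCycle_map (ι : V' ↪ V) (h : ∀ v, α (ι v) = ι (β v)) (v w : V') :
    α.SameCycle (ι v) (ι w) ↔ β.SameCycle v w := by
  rw [sameCycle_iff, sameCycle_iff]
  simp_rw [pow_map ι h, ι.injective.eq_iff]

theorem sameCycle_range (ι : V' ↪ V) (h : ∀ v, α (ι v) = ι (β v)) (v : V') (w : V)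
    (hw : α.SameCycle (ι v) w) : w ∈ Set.range ι := by
  rw [sameCycle_iff] at hw
  obtain ⟨k, rfl⟩ := hw
  rw [pow_map ι h]
  exact ⟨_, rfl⟩

theorem mp_map (ι : V' ↪ V) (h : ∀ v, α (ι v) = ι (β v)) (v : V') :
    minimalPeriod α (ι v) = minimalPeriod β v := by
  have key : ∀ k, minimalPeriod α (ι v) ∣ k ↔ minimalPeriod β v ∣ k := by
    intro k
    rw [← isPeriodicPt_iff_minimalPeriod_dvd, ← isPeriodicPt_iff_minimalPeriod_dvd]
    unfold IsPeriodicPt IsFixedPt
    rw [← Perm.coe_pow, ← Perm.coe_pow, pow_map ι h, ι.injective.eq_iff]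
  exact Nat.dvd_antisymm ((key _).2 dvd_rfl) ((key _).1 dvd_rfl)

theorem ncyc_map (ι : V' ↪ V) (h : ∀ v, α (ι v) = ι (β v)) (Y : Finset V') :
    ncyc α (Y.map ι) = ncyc β Y := by
  unfold ncyc
  have h1 : ∀ v : V', (univ.filter fun w => α.SameCycle (ι v) w)
      = (univ.filter fun w => β.SameCycle v w).map ι := by
    intro v
    ext w
    rw [Finset.mem_filter, Finset.mem_map]
    constructor
    · rintro ⟨-, hw⟩
      obtain ⟨w', rfl⟩ := sameCycle_range ι h v w hw
      exact ⟨w', by simpa using (sameCycle_map ι h v w').1 hw, rfl⟩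
    · rintro ⟨w', hw', rfl⟩
      exact ⟨Finset.mem_univ _, (sameCycle_map ι h v w').2 (by simpa using hw')⟩
  have h2 : (Y.map ι).image (fun v => (univ.filter fun w => α.SameCycle v w))
      = (Y.image fun v => (univ.filter fun w => β.SameCycle v w)).image
        (fun Z => Z.map ι) := by
    rw [Finset.map_eq_image, Finset.image_image, Finset.image_image]
    apply Finset.image_congr
    intro v _
    simp only [Function.comp]
    exact h1 v
  rw [h2, Finset.card_image_of_injective _ (Finset.map_injective ι)]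

theorem ncyc_union {U Y Z : Finset V} (hU : ∀ v, v ∈ U ↔ v ∈ Y ∨ v ∈ Z)
    (h : ∀ y ∈ Y, ∀ z ∈ Z, ¬ α.SameCycle y z) :
    ncyc α U = ncyc α Y + ncyc α Z := by
  have hU' : U = Y ∪ Z := by
    ext v
    rw [hU, Finset.mem_union]
  subst hU'
  unfold ncyc
  rw [Finset.image_union, Finset.card_union_of_disjoint]
  rw [Finset.disjoint_left]
  intro S hS hS'
  obtain ⟨y, hy, rfl⟩ := Finset.mem_image.1 hS
  obtain ⟨z, hz, h2⟩ := Finset.mem_image.1 hS'
  apply h y hy z hz
  have h3 : z ∈ univ.filter fun w => α.SameCycle z w :=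
    Finset.mem_filter.2 ⟨Finset.mem_univ _, Perm.SameCycle.refl _ _⟩
  rw [h2] at h3
  exact (Finset.mem_filter.1 h3).2

theorem ncyc_one (v : V) (h : ∀ v w, α.SameCycle v w) : ncyc α univ = 1 := by
  unfold ncyc
  rw [Finset.card_eq_one]
  refine ⟨univ, ?_⟩
  ext S
  rw [Finset.mem_image, Finset.mem_singleton]
  have h1 : ∀ v, (univ.filter fun w => α.SameCycle v w) = univ := by
    intro v
    rw [Finset.filter_eq_self]
    intro w _
    exact h v w
  constructor
  · rintro ⟨v, -, rfl⟩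
    exact h1 v
  · rintro rfl
    exact ⟨v, Finset.mem_univ _, h1 v⟩

end emb

variable {b : ℕ} [NeZero b]

theorem rot_pow (k : ℕ) (i : ZMod b) : ((rot b) ^ k) i = i + k := by
  induction k with
  | zero => simp
  | succ k ih =>
    rw [pow_succ', Perm.mul_apply, ih]
    simp [rot, add_assoc]

theorem rot_sameCycle (i j : ZMod b) : (rot b).SameCycle i j := by
  rw [sameCycle_iff]
  refine ⟨(j - i).val, ?_⟩
  rw [rot_pow, ZMod.natCast_zmod_val]
  ring

theorem rot_mp (i : ZMod b) : minimalPeriod (rot b) i = b := by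
  have key : ∀ k, minimalPeriod (rot b) i ∣ k ↔ b ∣ k := by
    intro k
    rw [← isPeriodicPt_iff_minimalPeriod_dvd]
    unfold IsPeriodicPt IsFixedPt
    rw [← Perm.coe_pow, rot_pow, ← ZMod.natCast_eq_zero_iff]
    simp
  exact Nat.dvd_antisymm ((key _).2 dvd_rfl) ((key _).1 dvd_rfl)

theorem ncyc_rot : ncyc (rot b) univ = 1 := ncyc_one 0 rot_sameCycle

theorem not_sameCycle_inl_inr {A B : Type} [Fintype A] [Fintype B] (α : Perm A) (β : Perm B)
    (a : A) (x : B) :
    ¬ Perm.SameCycle (Equiv.sumCongr α β : Perm (A ⊕ B)) (Sum.inl a) (Sum.inr x) := by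
  intro h
  have := sameCycle_range (α := Equiv.sumCongr α β) (β := α) ⟨Sum.inl, Sum.inl_injective⟩
    (fun _ => rfl) a (Sum.inr x) h
  obtain ⟨y, hy⟩ := this
  cases hy

theorem ncyc_rot_sum {X : Type} [Fintype X] (τ : Perm X) :
    ncyc (Equiv.sumCongr (rot b) τ : Perm (ZMod b ⊕ X)) univ = 1 + ncyc τ univ := by
  rw [ncyc_union (Y := univ.map ⟨Sum.inl, Sum.inl_injective⟩)
      (Z := univ.map ⟨Sum.inr, Sum.inr_injective⟩),
    ncyc_map (β := rot b) _ (fun _ => rfl), ncyc_map (β := τ) _ (fun _ => rfl), ncyc_rot]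
  · intro v
    rcases v with i | x <;> simp
  intro y hy z hz
  obtain ⟨i, -, rfl⟩ := Finset.mem_map.1 hy
  obtain ⟨x, -, rfl⟩ := Finset.mem_map.1 hz
  exact not_sameCycle_inl_inr _ _ _ _

/-! ### The states on `N ⊕ (C ⊕ X)` -/

variable {N C X : Type} [Fintype N] [Fintype C] [Fintype X]

def stN (N : Type) (c : C → ℤ) (f : X → ℤ) : N ⊕ (C ⊕ X) → Option ℤ :=
  Sum.elim (fun _ => none) (Sum.elim (fun i => some (c i)) (fun x => some (f x)))

/-- the permutation on `N ⊕ (C ⊕ X)` -/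
def pN (σ : Perm N) (γ : Perm C) (τ : Perm X) : Perm (N ⊕ (C ⊕ X)) :=
  Equiv.sumCongr σ (Equiv.sumCongr γ τ)

theorem stN_inv (σ : Perm N) (γ : Perm C) (τ : Perm X) {c : C → ℤ} {f : X → ℤ}
    (hc : ∀ i, c (γ i) = c i) (hf : ∀ x, f (τ x) = f x) (v : N ⊕ (C ⊕ X)) :
    stN N c f (pN σ γ τ v) = stN N c f v := by
  rcases v with i | i | x
  · rfl
  · exact congrArg some (hc i)
  · exact congrArg some (hf x)

/-- state function with value `j` on the cycle of `x` and 2 elsewhere -/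
noncomputable def fj (τ : Perm X) (x : X) (j : ℤ) : X → ℤ :=
  fun w => if τ.SameCycle x w then j else 2

theorem fj_inv (τ : Perm X) (x : X) (j : ℤ) (w : X) : fj τ x j (τ w) = fj τ x j w := by
  unfold fj
  simp

theorem fj_two (τ : Perm X) (x : X) : fj τ x 2 = fun _ => 2 := by
  funext w
  simp [fj]

def iN (N C : Type) : X ↪ N ⊕ (C ⊕ X) :=
  ⟨fun x => Sum.inr (Sum.inr x), fun x y h => by simpa using h⟩

def iC (N X : Type) : C ↪ N ⊕ (C ⊕ X) :=
  ⟨fun x => Sum.inr (Sum.inl x), fun x y h => by simpa using h⟩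

def iF (C X : Type) : N ↪ N ⊕ (C ⊕ X) :=
  ⟨fun x => Sum.inl x, fun x y h => by simpa using h⟩

theorem mp_N (σ : Perm N) (γ : Perm C) (τ : Perm X) (v : N) :
    minimalPeriod (pN σ γ τ) (Sum.inl v) = minimalPeriod σ v :=
  mp_map (α := pN σ γ τ) (iF C X) (fun _ => rfl) v

theorem mp_C (σ : Perm N) (γ : Perm C) (τ : Perm X) (v : C) :
    minimalPeriod (pN σ γ τ) (Sum.inr (Sum.inl v)) = minimalPeriod γ v :=
  mp_map (α := pN σ γ τ) (iC N X) (fun _ => rfl) v

theorem mp_X (σ : Perm N) (γ : Perm C) (τ : Perm X) (v : X) :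
    minimalPeriod (pN σ γ τ) (Sum.inr (Sum.inr v)) = minimalPeriod τ v :=
  mp_map (α := pN σ γ τ) (iN N C) (fun _ => rfl) v

theorem sb_N (σ : Perm N) (γ : Perm C) (τ : Perm X) (c : C → ℤ) (f : X → ℤ) (v : N) (l : ℕ) :
    sb (stN N c f) (dl (pN σ γ τ) (Sum.inl v) l) = stN N c f := by
  funext w
  rcases w with i | i | x
  · rfl
  · have : ¬ (pN σ γ τ).SameCycle (Sum.inl v) (Sum.inr (Sum.inl i)) :=
      not_sameCycle_inl_inr σ (Equiv.sumCongr γ τ) v (Sum.inl i)
    simp [sb, stN, dl, this]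
  · have : ¬ (pN σ γ τ).SameCycle (Sum.inl v) (Sum.inr (Sum.inr x)) :=
      not_sameCycle_inl_inr σ (Equiv.sumCongr γ τ) v (Sum.inr x)
    simp [sb, stN, dl, this]

theorem sb_X (σ : Perm N) (γ : Perm C) (τ : Perm X) (c : C → ℤ) (f : X → ℤ) (x : X) (l : ℕ) :
    sb (stN N c f) (dl (pN σ γ τ) (Sum.inr (Sum.inr x)) l)
      = stN N c (fun w => f w - if τ.SameCycle x w then ((l / minimalPeriod τ x : ℕ) : ℤ) else 0) := by
  funext w
  rcases w with i | i | y
  · rfl
  · have : ¬ (pN σ γ τ).SameCycle (Sum.inr (Sum.inr x)) (Sum.inr (Sum.inl i)) := by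
      intro h
      obtain ⟨y, hy⟩ := sameCycle_range (α := pN σ γ τ) (iN N C) (fun _ => rfl) x _ h
      cases hy
    simp [sb, stN, dl, this]
  · have : (pN σ γ τ).SameCycle (Sum.inr (Sum.inr x)) (Sum.inr (Sum.inr y)) ↔ τ.SameCycle x y :=
      sameCycle_map (α := pN σ γ τ) (iN N C) (fun _ => rfl) x y
    simp only [sb, stN, dl, this, Sum.elim_inr, Option.map_some, mp_X]
    split_ifs <;> simp

theorem sb_C (σ : Perm N) (γ : Perm C) (τ : Perm X) (c : C → ℤ) (f : X → ℤ) (x : C) (l : ℕ) :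
    sb (stN N c f) (dl (pN σ γ τ) (Sum.inr (Sum.inl x)) l)
      = stN N (fun w => c w - if γ.SameCycle x w then ((l / minimalPeriod γ x : ℕ) : ℤ) else 0)
          f := by
  funext w
  rcases w with i | i | y
  · rfl
  · have : (pN σ γ τ).SameCycle (Sum.inr (Sum.inl x)) (Sum.inr (Sum.inl i)) ↔ γ.SameCycle x i :=
      sameCycle_map (α := pN σ γ τ) (iC N X) (fun _ => rfl) x i
    simp only [sb, stN, dl, this, Sum.elim_inr, Sum.elim_inl, Option.map_some, mp_C]
    split_ifs <;> simp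
  · have : ¬ (pN σ γ τ).SameCycle (Sum.inr (Sum.inl x)) (Sum.inr (Sum.inr y)) := by
      intro h
      obtain ⟨y, hy⟩ := sameCycle_range (α := pN σ γ τ) (iC N X) (fun _ => rfl) x _ h
      cases hy
    simp [sb, stN, dl, this]

theorem W_congr {V : Type} [Fintype V] {α : Perm V} {st st' : V → Option ℤ}
    (h : ∀ v, st v = st' v) : W α st = W α st' := by
  rw [funext h]

/-- (t1) move a standard cycle to the front -/
theorem W_t1 (σ : Perm N) (γ : Perm C) (τ : Perm X) (c : C → ℤ) (j : ℤ) (f : X → ℤ) :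
    W (pN σ γ (Equiv.sumCongr (rot b) τ : Perm (ZMod b ⊕ X)))
        (stN N c (Sum.elim (fun _ => j) f))
      = W (Equiv.sumCongr (rot b) (pN σ γ τ) : Perm (ZMod b ⊕ (N ⊕ (C ⊕ X))))
          (el b j (stN N c f)) := by
  apply W_transport (ι := ⟨fun v => match v with
    | Sum.inl i => Sum.inr (Sum.inr (Sum.inl i))
    | Sum.inr (Sum.inl a) => Sum.inl a
    | Sum.inr (Sum.inr (Sum.inl a)) => Sum.inr (Sum.inl a)
    | Sum.inr (Sum.inr (Sum.inr a)) => Sum.inr (Sum.inr (Sum.inr a)), by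
      rintro (i | i | i | i) (k | k | k | k) h <;> simp_all⟩)
  · rintro (i | i | i | i) <;> rfl
  · rintro (i | i | i | i) <;> rfl
  · rintro (i | i | i | i) hv
    · exact absurd ⟨Sum.inr (Sum.inl i), rfl⟩ hv
    · exact absurd ⟨Sum.inr (Sum.inr (Sum.inl i)), rfl⟩ hv
    · exact absurd ⟨Sum.inl i, rfl⟩ hv
    · exact absurd ⟨Sum.inr (Sum.inr (Sum.inr i)), rfl⟩ hv

/-- (t2) the front cycle as the `C`-part -/
theorem W_t2 (σ : Perm N) (γ : Perm Empty) (τ : Perm X) (c : Empty → ℤ) (k : ℤ) (f : X → ℤ) :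
    W (Equiv.sumCongr (rot b) (pN σ γ τ) : Perm (ZMod b ⊕ (N ⊕ (Empty ⊕ X))))
          (el b k (stN N c f))
      = W (pN σ (rot b) τ) (stN N (fun _ => k) f) := by
  apply W_transport (ι := ⟨fun v => match v with
    | Sum.inl i => Sum.inr (Sum.inl i)
    | Sum.inr (Sum.inl a) => Sum.inl a
    | Sum.inr (Sum.inr a) => Sum.inr (Sum.inr (Sum.inr a)), by
      rintro (i | i | i) (k | k | k) h <;> simp_all⟩)
  · rintro (i | i | i) <;> rfl
  · rintro (i | i | i) <;> rfl
  · rintro (i | i | i | i) hv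
    · exact absurd ⟨Sum.inr (Sum.inl i), rfl⟩ hv
    · exact absurd ⟨Sum.inl i, rfl⟩ hv
    · exact i.elim
    · exact absurd ⟨Sum.inr (Sum.inr i), rfl⟩ hv

/-- (t3) a dead `C`-part can be dropped -/
theorem W_t3 (σ : Perm N) (γ : Perm C) (τ : Perm X) (δ : Perm Empty) (f : X → ℤ)
    (c : Empty → ℤ) :
    W (pN σ γ τ) (stN N (fun _ => 0) f) = W (pN σ δ τ) (stN N c f) := by
  apply W_transport (ι := ⟨fun v => match v with
    | Sum.inl i => Sum.inl i
    | Sum.inr (Sum.inl a) => a.elim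
    | Sum.inr (Sum.inr a) => Sum.inr (Sum.inr a), by
      rintro (i | i | i) (k | k | k) h <;> first | exact i.elim | exact k.elim | simp_all⟩)
  · rintro (i | i | i)
    · rfl
    · exact i.elim
    · rfl
  · rintro (i | i | i)
    · rfl
    · exact i.elim
    · rfl
  · rintro (i | i | i) hv
    · exact absurd ⟨Sum.inl i, rfl⟩ hv
    · rfl
    · exact absurd ⟨Sum.inr (Sum.inr i), rfl⟩ hv

end Pool.Agent.H958R4
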