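import Pool.Agent.H958R4.G5

namespace Pool.Agent.H958R4

open Equiv Finset Function
open scoped Classical

set_option linter.unusedSectionVars false
set_option linter.unusedSimpArgs false

variable {b : ℕ} [NeZero b]
variable {N C X : Type} [Fintype N] [Fintype C] [Fintype X]

theorem mp_dvd_iff {V : Type} [Fintype V] (σ : Perm V) (u : V) (k : ℕ) :
    minimalPeriod σ u ∣ k ↔ (σ ^ k : Perm V) u = u := by
  rw [← isPeriodicPt_iff_minimalPeriod_dvd, Perm.coe_pow]
  rfl

theorem lcm_eq_two_iff {a c : ℕ} (ha : 0 < a) (hc : 0 < c) :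
    Nat.lcm a c = 2 * a ↔ c ∣ 2 * a ∧ ¬ c ∣ a := by
  constructor
  · intro h
    refine ⟨h ▸ Nat.dvd_lcm_right a c, fun h2 => ?_⟩
    rw [Nat.lcm_eq_left h2] at h
    omega
  · rintro ⟨h1, h2⟩
    have h3 : Nat.lcm a c ∣ 2 * a := Nat.lcm_dvd (Dvd.intro_left 2 rfl) h1
    obtain ⟨k, hk⟩ := Nat.dvd_lcm_left a c
    have h4 := lcm_div_ge ha hc h2
    rw [hk, Nat.mul_div_cancel_left _ ha] at h4
    have h5 := Nat.le_of_dvd (by omega) h3
    rw [hk] at h5 ⊢
    have : k ≤ 2 := by
      by_contra hcon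
      have : a * 3 ≤ a * k := Nat.mul_le_mul_left a (by omega)
      omega
    have : k = 2 := by omega
    subst this
    ring

section terms

variable (τ : Perm X) (x : X) (H : (X → ℤ) → Polynomial ℚ) (hneg : ∀ f, (∃ y, f y < 0) → H f = 0)

theorem fj_eq (q : ℤ) : (fun w => (2 : ℤ) - if τ.SameCycle x w then q else 0) = fj τ x (2 - q) := by
  funext w
  unfold fj
  split_ifs <;> simp

theorem fj_self (j : ℤ) : fj τ x j x = j := by
  unfold fj
  exact if_pos (Perm.SameCycle.refl _ _)

include hneg in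
theorem H_neg {j : ℤ} (hj : j < 0) : H (fj τ x j) = 0 := by
  apply hneg
  exact ⟨x, by rw [fj_self]; exact hj⟩

include hneg in
theorem Xt1 {b : ℕ} (hb : 0 < b) :
    (if minimalPeriod τ x ∣ b then
      H (fun w => 2 - if τ.SameCycle x w then ((b / minimalPeriod τ x : ℕ) : ℤ) else 0) else 0)
    = (if minimalPeriod τ x = b then H (fj τ x 1) else 0)
      + (if 2 * minimalPeriod τ x = b then H (fj τ x 0) else 0) := by
  have hp := mp_pos τ x
  rw [fj_eq]
  generalize minimalPeriod τ x = c at hp ⊢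
  by_cases h : c ∣ b
  · obtain ⟨q, rfl⟩ := h
    rw [if_pos (Dvd.intro _ rfl), Nat.mul_div_cancel_left _ hp]
    rcases q with _ | _ | _ | q
    · omega
    · have h1 : ¬ (2 * c = c * (0 + 1)) := by omega
      rw [if_pos (by ring), if_neg h1]
      norm_num
    · have h1 : ¬ (c = c * (0 + 1 + 1)) := by omega
      rw [if_neg h1, if_pos (by ring)]
      norm_num
    · have h1 : ¬ (c = c * (q + 1 + 1 + 1)) := by nlinarith
      have h2 : ¬ (2 * c = c * (q + 1 + 1 + 1)) := by nlinarith
      rw [if_neg h1, if_neg h2, H_neg τ x H hneg]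
      · simp
      · push_cast; omega
  · have h1 : ¬ (c = b) := by rintro rfl; exact h dvd_rfl
    have h2 : ¬ (2 * c = b) := by rintro rfl; exact h (Dvd.intro_left 2 rfl)
    rw [if_neg h, if_neg h1, if_neg h2, add_zero]

include hneg in
theorem Xt2 {b : ℕ} (hb : 0 < b) :
    (if minimalPeriod τ x ∣ b then
      H (fun w => (2 - if τ.SameCycle x w then ((b / minimalPeriod τ x : ℕ) : ℤ) else 0)
        - if τ.SameCycle x w then ((b / minimalPeriod τ x : ℕ) : ℤ) else 0) else 0)
    = (if minimalPeriod τ x = b then H (fj τ x 0) else 0) := by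
  have hp := mp_pos τ x
  have h0 : (fun w => (2 - if τ.SameCycle x w then ((b / minimalPeriod τ x : ℕ) : ℤ) else 0)
        - if τ.SameCycle x w then ((b / minimalPeriod τ x : ℕ) : ℤ) else 0)
        = fj τ x (2 - 2 * ((b / minimalPeriod τ x : ℕ) : ℤ)) := by
    funext w
    unfold fj
    split_ifs <;> ring
  rw [h0]
  generalize minimalPeriod τ x = c at hp ⊢
  by_cases h : c ∣ b
  · obtain ⟨q, rfl⟩ := h
    rw [if_pos (Dvd.intro _ rfl), Nat.mul_div_cancel_left _ hp]
    rcases q with _ | _ | q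
    · omega
    · rw [if_pos (by ring)]
      norm_num
    · have h1 : ¬ (c = c * (q + 1 + 1)) := by nlinarith
      rw [if_neg h1, H_neg τ x H hneg]
      push_cast; omega
  · have h1 : ¬ (c = b) := by rintro rfl; exact h dvd_rfl
    rw [if_neg h, if_neg h1]

include hneg in
theorem Xt3 {b : ℕ} (hb : 0 < b) :
    (if Nat.lcm b (minimalPeriod τ x) = 2 * b then
      H (fun w => 2 - if τ.SameCycle x w then (((2 * b) / minimalPeriod τ x : ℕ) : ℤ) else 0) else 0)
    = (if minimalPeriod τ x = 2 * b then H (fj τ x 1) else 0) := by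
  have hp := mp_pos τ x
  rw [fj_eq]
  generalize minimalPeriod τ x = c at hp ⊢
  simp only [lcm_eq_two_iff hb hp]
  by_cases h : c ∣ 2 * b ∧ ¬ c ∣ b
  · rw [if_pos h]
    obtain ⟨⟨q, hq⟩, h2⟩ := h
    rw [hq, Nat.mul_div_cancel_left _ hp]
    rcases q with _ | _ | _ | q
    · omega
    · rw [if_pos (by ring)]
      norm_num
    · exfalso
      apply h2
      exact ⟨1, by omega⟩
    · have h1 : ¬ (c = c * (q + 1 + 1 + 1)) := by nlinarith
      rw [if_neg h1, H_neg τ x H hneg]
      push_cast; omega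
  · rw [if_neg h]
    have h1 : ¬ (c = 2 * b) := by
      rintro rfl
      apply h
      refine ⟨dvd_rfl, fun h3 => ?_⟩
      have := Nat.le_of_dvd hb h3
      omega
    rw [if_neg h1]

end terms

theorem W_negX (σ : Perm N) (γ : Perm C) (τ : Perm X) (c : C → ℤ) (f : X → ℤ)
    (hf : ∃ y, f y < 0) : W (pN σ γ τ) (stN N c f) = 0 := by
  obtain ⟨y, hy⟩ := hf
  exact W_neg (v := Sum.inr (Sum.inr y)) rfl hy

theorem W_negX' (σ : Perm N) (γ : Perm C) (τ : Perm X) (c : C → ℤ) (k : ℤ) (f : X → ℤ)
    (hf : ∃ y, f y < 0) :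
    W (Equiv.sumCongr (rot b) (pN σ γ τ) : Perm (ZMod b ⊕ (N ⊕ (C ⊕ X))))
      (el b k (stN N c f)) = 0 := by
  obtain ⟨y, hy⟩ := hf
  exact W_neg (v := Sum.inr (Sum.inr (Sum.inr y))) rfl hy

/-- number of points of `σ` whose period divides `k` -/
theorem fixc_eq (σ : Perm N) (k : ℕ) :
    fixc σ k = (univ.filter fun u => minimalPeriod σ u ∣ k).card := by
  unfold fixc
  congr 1
  apply Finset.filter_congr
  intro u _
  rw [mp_dvd_iff]

theorem sumN1 (σ : Perm N) (k : ℕ) (w : Polynomial ℚ) :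
    ∑ u : N, (if minimalPeriod σ u ∣ k then w else 0) = (fixc σ k : Polynomial ℚ) * w := by
  rw [← Finset.sum_filter, Finset.sum_const, fixc_eq, nsmul_eq_mul]

theorem sumN2 (σ : Perm N) {k : ℕ} (hk : 0 < k) (w : Polynomial ℚ) :
    ∑ u : N, (if Nat.lcm k (minimalPeriod σ u) = 2 * k then w else 0)
      = ((fixc σ (2 * k) : Polynomial ℚ) - fixc σ k) * w := by
  have h : ∀ u : N, (if Nat.lcm k (minimalPeriod σ u) = 2 * k then w else 0)
      = (if minimalPeriod σ u ∣ 2 * k then w else 0)
        - (if minimalPeriod σ u ∣ k then w else 0) := by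
    intro u
    have h1 := lcm_eq_two_iff hk (mp_pos σ u)
    have h2 : minimalPeriod σ u ∣ k → minimalPeriod σ u ∣ 2 * k := fun h => Dvd.dvd.mul_left h 2
    by_cases h3 : minimalPeriod σ u ∣ k
    · have h4 : ¬ (Nat.lcm k (minimalPeriod σ u) = 2 * k) := by
        rw [h1]; exact fun h => h.2 h3
      rw [if_neg h4, if_pos (h2 h3), if_pos h3, sub_self]
    · by_cases h5 : minimalPeriod σ u ∣ 2 * k
      · rw [if_pos (h1.2 ⟨h5, h3⟩), if_pos h5, if_neg h3, sub_zero]
      · have h4 : ¬ (Nat.lcm k (minimalPeriod σ u) = 2 * k) := by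
          rw [h1]; exact fun h => h5 h.1
        rw [if_neg h4, if_neg h5, if_neg h3, sub_zero]
  simp_rw [h]
  rw [Finset.sum_sub_distrib, sumN1, sumN1]
  ring

/-- the relation for a front cycle in state 1 -/
theorem R1t (σ : Perm N) (γ : Perm C) (τ : Perm X) (c : C → ℤ) (hc : ∀ i, c (γ i) = c i) :
    W (Equiv.sumCongr (rot b) (pN σ γ τ) : Perm (ZMod b ⊕ (N ⊕ (C ⊕ X))))
        (el b 1 (stN N c fun _ => 2))
      = (if Even b then Polynomial.X ^ (b / 2) * W (pN σ γ τ) (stN N c fun _ => 2) else 0)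
        + (fixc σ b : Polynomial ℚ) * (Polynomial.X ^ b * W (pN σ γ τ) (stN N c fun _ => 2))
        + ∑ u : C, (if minimalPeriod γ u ∣ b then Polynomial.X ^ b * W (pN σ γ τ)
            (stN N (fun w => c w - if γ.SameCycle u w then ((b / minimalPeriod γ u : ℕ) : ℤ) else 0)
              fun _ => 2) else 0)
        + (Polynomial.X ^ b * (∑ x ∈ univ.filter (fun x => minimalPeriod τ x = b),
              W (pN σ γ τ) (stN N c (fj τ x 1)))
          + if Even b then Polynomial.X ^ b * (∑ x ∈ univ.filter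
              (fun x => minimalPeriod τ x = b / 2), W (pN σ γ τ) (stN N c (fj τ x 0))) else 0) := by
  have hb := NeZero.pos b
  rw [R1g (pN σ γ τ) (stN N c fun _ => 2) (stN_inv σ γ τ hc (fun _ => rfl)),
    Fintype.sum_sum_type, Fintype.sum_sum_type, add_assoc, add_assoc, ← add_assoc (∑ _ : N, _)]
  congr 1
  rw [add_assoc]
  congr 1
  · rw [← sumN1]
    apply Finset.sum_congr rfl
    intro u _
    rw [mp_N, sb_N]
  congr 1
  · apply Finset.sum_congr rfl
    intro u _
    rw [mp_C, sb_C]
  · have h1 : ∀ x : X, (if minimalPeriod (pN σ γ τ) (Sum.inr (Sum.inr x)) ∣ b then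
          Polynomial.X ^ b * W (pN σ γ τ) (sb (stN N c fun _ => 2)
            (dl (pN σ γ τ) (Sum.inr (Sum.inr x)) b)) else 0)
        = Polynomial.X ^ b * (if minimalPeriod τ x = b then
              W (pN σ γ τ) (stN N c (fj τ x 1)) else 0)
          + Polynomial.X ^ b * (if 2 * minimalPeriod τ x = b then
              W (pN σ γ τ) (stN N c (fj τ x 0)) else 0) := by
      intro x
      rw [mp_X, sb_X, ← mul_add,
        ← Xt1 τ x (fun f => W (pN σ γ τ) (stN N c f)) (fun f => W_negX σ γ τ c f) hb, mul_ite,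
        mul_zero]
    simp_rw [h1]
    rw [Finset.sum_add_distrib, ← Finset.mul_sum, ← Finset.mul_sum, ← Finset.sum_filter,
      ← Finset.sum_filter]
    congr 1
    split_ifs with he
    · congr 1
      apply Finset.sum_congr _ (fun _ _ => rfl)
      apply Finset.filter_congr
      intro x _
      obtain ⟨r, hr⟩ := he
      omega
    · rw [Finset.filter_false_of_mem, Finset.sum_empty, mul_zero]
      intro x _ hx
      exact he ⟨minimalPeriod τ x, by omega⟩

/-- the relation for a front cycle in state 2 (no `C`-part) -/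
theorem R2t (σ : Perm N) (γ : Perm Empty) (τ : Perm X) (c : Empty → ℤ) :
    2 * W (Equiv.sumCongr (rot b) (pN σ γ τ) : Perm (ZMod b ⊕ (N ⊕ (Empty ⊕ X))))
        (el b 2 (stN N c fun _ => 2))
      = (if Even b then Polynomial.X ^ (b / 2) *
            W (Equiv.sumCongr (rot b) (pN σ γ τ) : Perm (ZMod b ⊕ (N ⊕ (Empty ⊕ X))))
              (el b 1 (stN N c fun _ => 2))
            - Polynomial.X ^ b * W (pN σ γ τ) (stN N c fun _ => 2) else 0)
        + ((b : Polynomial ℚ) - 1 - (if Even b then 1 else 0)) * Polynomial.X ^ b *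
            W (pN σ γ τ) (stN N c fun _ => 2)
        + (fixc σ b : Polynomial ℚ) * (Polynomial.X ^ b *
            (W (Equiv.sumCongr (rot b) (pN σ γ τ) : Perm (ZMod b ⊕ (N ⊕ (Empty ⊕ X))))
              (el b 1 (stN N c fun _ => 2))
            - Polynomial.X ^ b * W (pN σ γ τ) (stN N c fun _ => 2)))
        + ((fixc σ (2 * b) : Polynomial ℚ) - (fixc σ b : Polynomial ℚ)) * (Polynomial.X ^ (2 * b) *
            W (pN σ γ τ) (stN N c fun _ => 2))
        + (Polynomial.X ^ b * (∑ x ∈ univ.filter (fun x => minimalPeriod τ x = b),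
              W (pN σ (rot b) τ) (stN N (fun _ => 1) (fj τ x 1)))
          + (if Even b then Polynomial.X ^ b * (∑ x ∈ univ.filter
              (fun x => minimalPeriod τ x = b / 2),
                W (pN σ (rot b) τ) (stN N (fun _ => 1) (fj τ x 0))) else 0)
          - Polynomial.X ^ (2 * b) * (∑ x ∈ univ.filter (fun x => minimalPeriod τ x = b),
              W (pN σ γ τ) (stN N c (fj τ x 0)))
          + Polynomial.X ^ (2 * b) * (∑ x ∈ univ.filter (fun x => minimalPeriod τ x = 2 * b),
              W (pN σ γ τ) (stN N c (fj τ x 1)))) := by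
  have hb := NeZero.pos b
  rw [R2g (pN σ γ τ) (stN N c fun _ => 2) (stN_inv σ γ τ (fun i => i.elim) (fun _ => rfl)),
    Fintype.sum_sum_type, Fintype.sum_sum_type, add_assoc, add_assoc (_ + _ : Polynomial ℚ),
    add_assoc (_ + _ : Polynomial ℚ), add_assoc]
  congr 1
  congr 1
  rw [Finset.univ_eq_empty (α := Empty), Finset.sum_empty, zero_add, ← add_assoc]
  congr 1
  · rw [← sumN1, ← sumN2 σ hb, ← Finset.sum_add_distrib]
    apply Finset.sum_congr rfl
    intro u _
    rw [mp_N, sb_N, sb_N, sb_N]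
  · have h1 : ∀ x : X, ((if minimalPeriod (pN σ γ τ) (Sum.inr (Sum.inr x)) ∣ b then
          Polynomial.X ^ b * (W (Equiv.sumCongr (rot b) (pN σ γ τ) :
            Perm (ZMod b ⊕ (N ⊕ (Empty ⊕ X))))
            (el b 1 (sb (stN N c fun _ => 2) (dl (pN σ γ τ) (Sum.inr (Sum.inr x)) b)))
            - Polynomial.X ^ b * W (pN σ γ τ) (sb (sb (stN N c fun _ => 2)
              (dl (pN σ γ τ) (Sum.inr (Sum.inr x)) b))
              (dl (pN σ γ τ) (Sum.inr (Sum.inr x)) b))) else 0)
          + (if Nat.lcm b (minimalPeriod (pN σ γ τ) (Sum.inr (Sum.inr x))) = 2 * b then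
            Polynomial.X ^ (2 * b) * W (pN σ γ τ) (sb (stN N c fun _ => 2)
              (dl (pN σ γ τ) (Sum.inr (Sum.inr x)) (2 * b))) else 0))
        = Polynomial.X ^ b * (if minimalPeriod τ x = b then
              W (pN σ (rot b) τ) (stN N (fun _ => 1) (fj τ x 1)) else 0)
          + Polynomial.X ^ b * (if 2 * minimalPeriod τ x = b then
              W (pN σ (rot b) τ) (stN N (fun _ => 1) (fj τ x 0)) else 0)
          - Polynomial.X ^ (2 * b) * (if minimalPeriod τ x = b then
              W (pN σ γ τ) (stN N c (fj τ x 0)) else 0)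
          + Polynomial.X ^ (2 * b) * (if minimalPeriod τ x = 2 * b then
              W (pN σ γ τ) (stN N c (fj τ x 1)) else 0) := by
      intro x
      rw [mp_X, sb_X, sb_X, sb_X]
      rw [← mul_add, ← Xt1 τ x (fun f => W (pN σ (rot b) τ) (stN N (fun _ => 1) f))
          (fun f => W_negX σ (rot b) τ _ f) hb,
        ← Xt2 τ x (fun f => W (pN σ γ τ) (stN N c f)) (fun f => W_negX σ γ τ c f) hb,
        ← Xt3 τ x (fun f => W (pN σ γ τ) (stN N c f)) (fun f => W_negX σ γ τ c f) hb]
      simp only [W_t2]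
      have h2b : (Polynomial.X : Polynomial ℚ) ^ (2 * b) = Polynomial.X ^ b * Polynomial.X ^ b := by
        rw [two_mul, pow_add]
      split_ifs <;> rw [h2b] <;> ring
    simp_rw [h1]
    rw [Finset.sum_add_distrib, Finset.sum_sub_distrib, Finset.sum_add_distrib,
      ← Finset.mul_sum, ← Finset.mul_sum, ← Finset.mul_sum, ← Finset.mul_sum,
      ← Finset.sum_filter, ← Finset.sum_filter, ← Finset.sum_filter, ← Finset.sum_filter]
    congr 1
    congr 1
    congr 1
    split_ifs with he
    · congr 1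
      apply Finset.sum_congr _ (fun _ _ => rfl)
      apply Finset.filter_congr
      intro x _
      obtain ⟨r, hr⟩ := he
      omega
    · rw [Finset.filter_false_of_mem, Finset.sum_empty, mul_zero]
      intro x _ hx
      exact he ⟨minimalPeriod τ x, by omega⟩

end Pool.Agent.H958R4
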