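import Pool.Agent.H958R4.G6

namespace Pool.Agent.H958R4

open Equiv Finset Function
open scoped Classical

set_option linter.unusedSectionVars false
set_option linter.unusedSimpArgs false

variable {N C X : Type} [Fintype N] [Fintype C] [Fintype X]

noncomputable def gf (g : ∀ m : ℕ, Perm (Fin m) → Polynomial ℚ) : PS :=
  PowerSeries.mk fun m => Polynomial.C (1 / m.factorial : ℚ) *
    ∑ τ : Perm (Fin m), (-1) ^ (ncyc τ univ) * g m τ

theorem gf_congr {g g' : ∀ m : ℕ, Perm (Fin m) → Polynomial ℚ} (h : ∀ m τ, g m τ = g' m τ) :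
    gf g = gf g' := by
  have : g = g' := by funext m τ; exact h m τ
  rw [this]

theorem gf_add (g g' : ∀ m : ℕ, Perm (Fin m) → Polynomial ℚ) :
    gf (fun m τ => g m τ + g' m τ) = gf g + gf g' := by
  ext1 m
  simp only [gf, PowerSeries.coeff_mk, map_add, mul_add, Finset.sum_add_distrib]

theorem gf_sub (g g' : ∀ m : ℕ, Perm (Fin m) → Polynomial ℚ) :
    gf (fun m τ => g m τ - g' m τ) = gf g - gf g' := by
  ext1 m
  simp only [gf, PowerSeries.coeff_mk, map_sub, mul_sub, Finset.sum_sub_distrib]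

theorem gf_zero : gf (fun _ _ => 0) = 0 := by
  ext1 m
  simp [gf]

theorem gf_mul (a : Polynomial ℚ) (g : ∀ m : ℕ, Perm (Fin m) → Polynomial ℚ) :
    gf (fun m τ => a * g m τ) = PowerSeries.C a * gf g := by
  ext1 m
  simp only [gf, PowerSeries.coeff_mk, PowerSeries.coeff_C_mul]
  have h : ∀ τ : Perm (Fin m), (-1) ^ (ncyc τ univ) * (a * g m τ)
      = a * ((-1) ^ (ncyc τ univ) * g m τ) := fun τ => by ring
  rw [Finset.sum_congr rfl (fun τ _ => h τ), ← Finset.mul_sum]
  ring

theorem gf_ite (p : Prop) [Decidable p] (g : ∀ m : ℕ, Perm (Fin m) → Polynomial ℚ) :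
    gf (fun m τ => if p then g m τ else 0) = if p then gf g else 0 := by
  split_ifs
  · rfl
  · exact gf_zero

section

variable (σ : Perm N)

noncomputable def Gf (γ : Perm C) (c : C → ℤ) : PS :=
  gf fun _ τ => W (pN σ γ τ) (stN N c fun _ => 2)

noncomputable def Gc (b : ℕ) [NeZero b] (γ : Perm C) (c : C → ℤ) (k : ℤ) : PS :=
  gf fun m τ => W (Equiv.sumCongr (rot b) (pN σ γ τ) : Perm (ZMod b ⊕ (N ⊕ (C ⊕ Fin m))))
    (el b k (stN N c fun _ => 2))

noncomputable def Pf (γ : Perm C) (c : C → ℤ) (b : ℕ) (j : ℤ) : PS :=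
  gf fun _ τ => ∑ x ∈ univ.filter (fun x => minimalPeriod τ x = b),
    W (pN σ γ τ) (stN N c (fj τ x j))

theorem natCast_mul_smul (n : ℕ) (p : Polynomial ℚ) : (n : Polynomial ℚ) * p = (n : ℚ) • p := by
  rw [Polynomial.smul_eq_C_mul, Polynomial.C_eq_natCast]

theorem W_perm_inv (γ : Perm C) (c : C → ℤ) (j : ℤ) {V V' : Type} [Fintype V] [Fintype V']
    (e : V ≃ V') (α : Perm V) (v : V) :
    W (pN σ γ (e.permCongr α)) (stN N c (fj (e.permCongr α) (e v) j))
      = W (pN σ γ α) (stN N c (fj α v j)) := by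
  have he : ∀ x, (e.permCongr α) (e.toEmbedding x) = e.toEmbedding (α x) := by
    intro x
    simp [Equiv.permCongr_apply]
  apply W_transport (ι := (Function.Embedding.refl N).sumMap
    ((Function.Embedding.refl C).sumMap e.toEmbedding))
  · rintro (i | i | i)
    · rfl
    · rfl
    · exact congrArg (fun z => Sum.inr (Sum.inr z)) (he i)
  · rintro (i | i | i)
    · rfl
    · rfl
    · have h1 : fj (e.permCongr α) (e v) j (e i) = fj α v j i := by
        unfold fj
        have := sameCycle_map (α := e.permCongr α) (β := α) e.toEmbedding he v i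
        simp only [Equiv.coe_toEmbedding] at this
        simp only [this]
      exact congrArg some h1
  · rintro (i | i | i) hv
    · exact absurd ⟨Sum.inl i, rfl⟩ hv
    · exact absurd ⟨Sum.inr (Sum.inl i), rfl⟩ hv
    · exact absurd ⟨Sum.inr (Sum.inr (e.symm i)),
        congrArg (fun z => Sum.inr (Sum.inr z)) (e.apply_symm_apply i)⟩ hv

theorem ncyc_perm_inv {V V' : Type} [Fintype V] [Fintype V'] (e : V ≃ V') (α : Perm V) :
    ncyc (e.permCongr α) univ = ncyc α univ := by
  rw [← ncyc_map (α := e.permCongr α) (β := α) e.toEmbedding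
    (fun x => by simp [Equiv.permCongr_apply])]
  congr 1
  ext v
  simp

theorem Pf_eq (hCE : TaskCycleExtract) (b : ℕ) [NeZero b] (γ : Perm C) (c : C → ℤ) (j : ℤ) :
    Pf σ γ c b j = - (yy ^ b * Gc σ b γ c j) := by
  ext1 m
  rw [map_neg, yy, PowerSeries.coeff_X_pow_mul']
  by_cases hm : b ≤ m
  · rw [if_pos hm]
    obtain ⟨m', rfl⟩ := Nat.exists_eq_add_of_le hm
    rw [Nat.add_sub_cancel_left]
    have h := hCE (fun V _ α v => (-1) ^ (ncyc α univ) * W (pN σ γ α) (stN N c (fj α v j)))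
      (by
        intro V V' _ _ e α v
        rw [W_perm_inv, ncyc_perm_inv]) m' b
    have h1 : ∀ τ : Perm (Fin m'),
        (-1) ^ (ncyc (Equiv.sumCongr (rot b) τ : Perm (ZMod b ⊕ Fin m')) univ) *
          W (pN σ γ (Equiv.sumCongr (rot b) τ : Perm (ZMod b ⊕ Fin m')))
            (stN N c (fj (Equiv.sumCongr (rot b) τ : Perm (ZMod b ⊕ Fin m')) (Sum.inl 0) j))
        = - ((-1) ^ (ncyc τ univ) *
          W (Equiv.sumCongr (rot b) (pN σ γ τ) : Perm (ZMod b ⊕ (N ⊕ (C ⊕ Fin m'))))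
            (el b j (stN N c fun _ => 2))) := by
      intro τ
      rw [ncyc_rot_sum, ← W_t1]
      have h2 : fj (Equiv.sumCongr (rot b) τ : Perm (ZMod b ⊕ Fin m')) (Sum.inl 0) j
          = Sum.elim (fun _ => j) (fun _ => 2) := by
        funext v
        unfold fj
        rcases v with i | x
        · rw [if_pos]
          · rfl
          · exact (sameCycle_map (α := Equiv.sumCongr (rot b) τ) (β := rot b)
              ⟨Sum.inl, Sum.inl_injective⟩ (fun _ => rfl) 0 i).2 (rot_sameCycle 0 i)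
        · rw [if_neg (not_sameCycle_inl_inr (rot b) τ 0 x)]
          rfl
      rw [h2, pow_add, pow_one]
      ring
    simp only [h1] at h
    rw [Finset.sum_neg_distrib] at h
    have h5 : ∀ x : Perm (Fin (b + m')), ∑ i ∈ univ.filter (fun u => minimalPeriod x u = b),
      (-1 : Polynomial ℚ) ^ (ncyc x univ) * W (pN σ γ x) (stN N c (fj x i j))
      = (-1) ^ (ncyc x univ) * ∑ i ∈ univ.filter (fun u => minimalPeriod x u = b),
        W (pN σ γ x) (stN N c (fj x i j)) := fun x => (Finset.mul_sum _ _ _).symm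
    rw [Finset.sum_congr rfl (fun x _ => h5 x)] at h
    simp only [gf, Pf, Gc, PowerSeries.coeff_mk]
    rw [← Polynomial.C_eq_natCast, ← Polynomial.C_eq_natCast] at h
    generalize (∑ x : Perm (Fin (b + m')), (-1 : Polynomial ℚ) ^ (ncyc x univ) *
      ∑ i ∈ univ.filter (fun u => minimalPeriod x u = b),
        W (pN σ γ x) (stN N c (fj x i j))) = S at h ⊢
    generalize (∑ x : Perm (Fin m'), (-1) ^ (ncyc x univ) *
      W (Equiv.sumCongr (rot b) (pN σ γ x) : Perm (ZMod b ⊕ (N ⊕ (C ⊕ Fin m'))))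
        (el b j (stN N c fun _ => 2))) = S' at h ⊢
    have hf1 : (m'.factorial : ℚ) ≠ 0 := by exact_mod_cast Nat.factorial_ne_zero _
    have hf2 : ((b + m').factorial : ℚ) ≠ 0 := by exact_mod_cast Nat.factorial_ne_zero _
    have h3 : S = Polynomial.C (1 / m'.factorial : ℚ) * (Polynomial.C (m'.factorial : ℚ) * S) := by
      rw [← mul_assoc, ← map_mul, one_div, inv_mul_cancel₀ hf1, map_one, one_mul]
    rw [h3, h, mul_neg, mul_neg, mul_neg, ← mul_assoc, ← mul_assoc, ← map_mul, ← map_mul]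
    congr 3
    field_simp
  · rw [if_neg hm, neg_zero]
    simp only [gf, Pf, PowerSeries.coeff_mk]
    rw [Finset.sum_eq_zero, mul_zero]
    intro τ _
    rw [Finset.filter_false_of_mem, Finset.sum_empty, mul_zero]
    intro x _ hx
    have := minimalPeriod_le_card (f := τ) (x := x)
    rw [Fintype.card_fin] at this
    omega

theorem Gc_zero (b : ℕ) [NeZero b] (γ : Perm C) (c : C → ℤ) : Gc σ b γ c 0 = Gf σ γ c := by
  apply gf_congr
  intro m τ
  rw [W_el0]

theorem Gf_rot (b : ℕ) [NeZero b] (γ : Perm Empty) (c : Empty → ℤ) (k : ℤ) :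
    Gf σ (rot b) (fun _ => k) = Gc σ b γ c k := by
  apply gf_congr
  intro m τ
  rw [W_t2]

theorem C_X_pow (k : ℕ) : PowerSeries.C (Polynomial.X ^ k : Polynomial ℚ) = xx ^ k := by
  rw [map_pow]
  rfl

/-- the power series of the problem -/
noncomputable def Phi : PS := Gf σ (Equiv.refl Empty) (fun i => i.elim)
noncomputable def T1 (b : ℕ) [NeZero b] : PS := Gc σ b (Equiv.refl Empty) (fun i => i.elim) 1
noncomputable def T2 (b : ℕ) [NeZero b] : PS := Gc σ b (rot b) (fun _ => 1) 1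
noncomputable def Uu (b : ℕ) [NeZero b] : PS := Gc σ b (Equiv.refl Empty) (fun i => i.elim) 2

theorem ite_ev {b : ℕ} {p q : PS} (h : Even b → p = q) :
    (if Even b then p else 0) = if Even b then q else 0 := by
  split_ifs with he
  · exact h he
  · rfl

theorem Pf_half (hCE : TaskCycleExtract) (b : ℕ) [NeZero b] (γ : Perm C) (c : C → ℤ)
    (he : Even b) : Pf σ γ c (b / 2) 0 = -(yy ^ (b / 2) * Gf σ γ c) := by
  have : NeZero (b / 2) := ⟨by
    have := NeZero.pos b
    obtain ⟨r, hr⟩ := he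
    omega⟩
  rw [Pf_eq σ hCE (b / 2) γ c 0, Gc_zero]

theorem relG (hCE : TaskCycleExtract) (b : ℕ) [NeZero b] (γ : Perm C) (c : C → ℤ)
    (hc : ∀ i, c (γ i) = c i) (Q : PS)
    (hQ : gf (fun _ τ => ∑ u : C, (if minimalPeriod γ u ∣ b then Polynomial.X ^ b * W (pN σ γ τ)
            (stN N (fun w => c w - if γ.SameCycle u w then ((b / minimalPeriod γ u : ℕ) : ℤ) else 0)
              fun _ => 2) else 0)) = Q) :
    Gc σ b γ c 1 = (if Even b then xx ^ (b / 2) * Gf σ γ c else 0)
      + (fixc σ b : PS) * (xx ^ b * Gf σ γ c) + Q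
      + (xx ^ b * (-(yy ^ b * Gc σ b γ c 1))
        + if Even b then xx ^ b * (-(yy ^ (b / 2) * Gf σ γ c)) else 0) := by
  have e1 : Pf σ γ c b 1 = -(yy ^ b * Gc σ b γ c 1) := Pf_eq σ hCE b _ _ _
  have e5 : (if Even b then xx ^ b * (-(yy ^ (b / 2) * Gf σ γ c)) else 0)
      = if Even b then xx ^ b * Pf σ γ c (b / 2) 0 else 0 :=
    ite_ev fun he => by rw [Pf_half σ hCE b γ c he]
  rw [← e1, e5, ← hQ]
  conv_lhs => rw [Gc, gf_congr (fun m τ => R1t σ γ τ c hc)]
  rw [gf_add, gf_add, gf_add, gf_ite, gf_mul, gf_mul, gf_mul, gf_add, gf_mul, gf_ite, gf_mul]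
  simp only [map_natCast, C_X_pow]
  rfl

theorem rel1 (hCE : TaskCycleExtract) (b : ℕ) [NeZero b] :
    T1 σ b = ((fixc σ b : PS) * xx ^ b + ev b * xx ^ (b / 2)) * Phi σ - xx ^ b * yy ^ b * T1 σ b
        - ev b * xx ^ b * yy ^ (b / 2) * Phi σ := by
  have h := relG σ hCE b (Equiv.refl Empty) (fun i => i.elim) (fun i => i.elim) 0 (by
    rw [← gf_zero]
    apply gf_congr
    intro m τ
    rw [Finset.univ_eq_empty, Finset.sum_empty])
  change T1 σ b = (if Even b then xx ^ (b / 2) * Phi σ else 0)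
      + (fixc σ b : PS) * (xx ^ b * Phi σ) + 0
      + (xx ^ b * (-(yy ^ b * T1 σ b))
        + if Even b then xx ^ b * (-(yy ^ (b / 2) * Phi σ)) else 0) at h
  conv_lhs => rw [h]
  unfold ev
  split_ifs <;> ring

theorem rel2 (hCE : TaskCycleExtract) (b : ℕ) [NeZero b] :
    T2 σ b = ((fixc σ b : PS) * xx ^ b + ev b * xx ^ (b / 2)) * T1 σ b + (b : PS) * xx ^ b * Phi σ
        - xx ^ b * yy ^ b * T2 σ b - ev b * xx ^ b * yy ^ (b / 2) * T1 σ b := by
  have hG : Gf σ (rot b) (fun _ => 1) = T1 σ b := Gf_rot σ b _ _ _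
  have h := relG σ hCE b (rot b) (fun _ => 1) (fun _ => rfl) ((b : PS) * (xx ^ b * Phi σ)) (by
    have hsum : ∀ (m : ℕ) (τ : Perm (Fin m)),
        ∑ u : ZMod b, (if minimalPeriod (rot b) u ∣ b then Polynomial.X ^ b * W (pN σ (rot b) τ)
            (stN N (fun w => (1 : ℤ) - if (rot b).SameCycle u w then
              ((b / minimalPeriod (rot b) u : ℕ) : ℤ) else 0) fun _ => 2) else 0)
        = (b : Polynomial ℚ) * (Polynomial.X ^ b * W (pN σ (Equiv.refl Empty) τ)
            (stN N (fun i => i.elim) fun _ => 2)) := by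
      intro m τ
      have h1 : ∀ u : ZMod b, (if minimalPeriod (rot b) u ∣ b then Polynomial.X ^ b *
          W (pN σ (rot b) τ) (stN N (fun w => (1 : ℤ) - if (rot b).SameCycle u w then
              ((b / minimalPeriod (rot b) u : ℕ) : ℤ) else 0) fun _ => 2) else 0)
          = Polynomial.X ^ b * W (pN σ (Equiv.refl Empty) τ)
            (stN N (fun i => i.elim) fun _ => 2) := by
        intro u
        rw [rot_mp, if_pos dvd_rfl, Nat.div_self (NeZero.pos b)]
        have h2 : (fun w => (1 : ℤ) - if (rot b).SameCycle u w then ((1 : ℕ) : ℤ) else 0)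
            = fun _ => 0 := by
          funext w
          rw [if_pos (rot_sameCycle u w)]
          simp
        rw [h2, W_t3 σ (rot b) τ (Equiv.refl Empty) _ (fun i => i.elim)]
      rw [Finset.sum_congr rfl (fun u _ => h1 u)]
      rw [Finset.sum_const, Finset.card_univ, ZMod.card, nsmul_eq_mul]
    refine (gf_congr (g' := fun m τ => (b : Polynomial ℚ) * (Polynomial.X ^ b *
      W (pN σ (Equiv.refl Empty) τ) (stN N (fun i => i.elim) fun _ => 2)))
      (fun m τ => ?_)).trans ?_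
    · convert hsum m τ
    rw [gf_mul, gf_mul, map_natCast, C_X_pow]
    rfl)
  rw [hG] at h
  change T2 σ b = (if Even b then xx ^ (b / 2) * T1 σ b else 0)
      + (fixc σ b : PS) * (xx ^ b * T1 σ b) + (b : PS) * (xx ^ b * Phi σ)
      + (xx ^ b * (-(yy ^ b * T2 σ b))
        + if Even b then xx ^ b * (-(yy ^ (b / 2) * T1 σ b)) else 0) at h
  conv_lhs => rw [h]
  unfold ev
  split_ifs <;> ring

theorem rel3 (hCE : TaskCycleExtract) (a : ℕ) [NeZero a] [NeZero (2 * a)] :
    2 * Uu σ a = (fixc σ a : PS) * xx ^ a * (T1 σ a - xx ^ a * Phi σ)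
        + ((fixc σ (2 * a) : PS) - (fixc σ a : PS)) * xx ^ (2 * a) * Phi σ
        + ev a * (xx ^ (a / 2) * T1 σ a - xx ^ a * Phi σ)
        + ((a : PS) - 1 - ev a) * xx ^ a * Phi σ - yy ^ a * (xx ^ a * T2 σ a - xx ^ (2 * a) * Phi σ)
        - ev a * yy ^ (a / 2) * xx ^ a * T1 σ a
        - yy ^ (2 * a) * xx ^ (2 * a) * T1 σ (2 * a) := by
  have hG : Gf σ (rot a) (fun _ => 1) = T1 σ a := Gf_rot σ a _ _ _
  have h0 : 2 * Uu σ a = gf (fun m τ => 2 * W (Equiv.sumCongr (rot a)
      (pN σ (Equiv.refl Empty) τ) : Perm (ZMod a ⊕ (N ⊕ (Empty ⊕ Fin m))))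
        (el a 2 (stN N (fun i => i.elim) fun _ => 2))) := by
    rw [gf_mul]
    congr 1
  have h : 2 * Uu σ a = (if Even a then xx ^ (a / 2) * T1 σ a - xx ^ a * Phi σ else 0)
      + ((a : PS) - 1 - (if Even a then 1 else 0)) * xx ^ a * Phi σ
      + (fixc σ a : PS) * (xx ^ a * (T1 σ a - xx ^ a * Phi σ))
      + ((fixc σ (2 * a) : PS) - (fixc σ a : PS)) * (xx ^ (2 * a) * Phi σ)
      + (xx ^ a * (-(yy ^ a * T2 σ a))
        + (if Even a then xx ^ a * (-(yy ^ (a / 2) * T1 σ a)) else 0)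
        - xx ^ (2 * a) * (-(yy ^ a * Phi σ))
        + xx ^ (2 * a) * (-(yy ^ (2 * a) * T1 σ (2 * a)))) := by
    have e1 : Pf σ (rot a) (fun _ => 1) a 1 = -(yy ^ a * T2 σ a) := Pf_eq σ hCE a _ _ _
    have e2 : Even a → Pf σ (rot a) (fun _ => 1) (a / 2) 0 = -(yy ^ (a / 2) * T1 σ a) := by
      intro he
      have : NeZero (a / 2) := ⟨by
        have := NeZero.pos a
        obtain ⟨r, hr⟩ := he
        omega⟩
      have := Pf_eq σ hCE (a / 2) (rot a) (fun _ => 1) 0
      rw [Gc_zero, hG] at this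
      exact this
    have e3 : Pf σ (Equiv.refl Empty) (fun i => i.elim) a 0 = -(yy ^ a * Phi σ) := by
      have := Pf_eq σ hCE a (Equiv.refl Empty) (fun i => i.elim) 0
      rw [Gc_zero] at this
      exact this
    have e4 : Pf σ (Equiv.refl Empty) (fun i => i.elim) (2 * a) 1
        = -(yy ^ (2 * a) * T1 σ (2 * a)) := Pf_eq σ hCE (2 * a) _ _ _
    rw [← e1, ← e3, ← e4]
    have e5 : (if Even a then xx ^ a * (-(yy ^ (a / 2) * T1 σ a)) else 0)
        = if Even a then xx ^ a * Pf σ (rot a) (fun _ => 1) (a / 2) 0 else 0 := by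
      split_ifs with he
      · rw [e2 he]
      · rfl
    rw [e5, h0, gf_congr (fun m τ => R2t σ (Equiv.refl Empty) τ (fun i => i.elim))]
    have hcA : ((a : Polynomial ℚ) - 1 - (if Even a then 1 else 0)) * Polynomial.X ^ a
        = ((a : Polynomial ℚ) - 1 - (if Even a then 1 else 0)) * Polynomial.X ^ a := rfl
    rw [gf_add, gf_add, gf_add, gf_add, gf_ite, gf_sub, gf_mul, gf_mul, gf_mul, gf_mul, gf_mul,
      gf_sub, gf_mul, gf_mul, gf_mul, gf_add, gf_sub, gf_add, gf_mul, gf_ite, gf_mul, gf_mul,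
      gf_mul]
    simp only [map_mul, map_sub, map_one, map_natCast, C_X_pow]
    have e6 : PowerSeries.C (if Even a then 1 else 0 : Polynomial ℚ)
        = (if Even a then 1 else 0 : PS) := by
      split_ifs <;> simp
    rw [e6]
    rfl
  rw [h]
  unfold ev
  split_ifs <;> ring

theorem rel4 (m : ℕ) :
    (m : Polynomial ℚ) * PowerSeries.coeff m (Phi σ)
      = ∑ a ∈ Icc 1 m, PowerSeries.coeff m (Pf σ (Equiv.refl Empty) (fun i => i.elim) a 2) := by
  simp only [Phi, Gf, Pf, gf, PowerSeries.coeff_mk]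
  rw [mul_left_comm, ← Finset.mul_sum, Finset.mul_sum, Finset.sum_comm]
  congr 1
  apply Finset.sum_congr rfl
  intro τ _
  rw [← Finset.mul_sum]
  rw [mul_left_comm]
  congr 1
  have h1 : ∀ a, ∑ x ∈ univ.filter (fun x => minimalPeriod τ x = a),
      W (pN σ (Equiv.refl Empty) τ) (stN N (fun i => i.elim) (fj τ x 2))
      = ∑ x ∈ univ.filter (fun x => minimalPeriod τ x = a),
      W (pN σ (Equiv.refl Empty) τ) (stN N (fun i => i.elim) (fun _ => 2)) := by
    intro a
    apply Finset.sum_congr rfl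
    intro x _
    rw [fj_two]
  simp_rw [h1]
  rw [Finset.sum_fiberwise_of_maps_to]
  · rw [Finset.sum_const, Finset.card_univ, Fintype.card_fin, nsmul_eq_mul]
  · intro x _
    rw [Finset.mem_Icc]
    refine ⟨mp_pos τ x, ?_⟩
    have := minimalPeriod_le_card (f := τ) (x := x)
    rwa [Fintype.card_fin] at this

theorem rel0 : PowerSeries.coeff 0 (Phi σ) = 1 := by
  simp only [Phi, Gf, gf, PowerSeries.coeff_mk]
  have h1 : ∀ τ : Perm (Fin 0), ((-1 : Polynomial ℚ) ^ (ncyc τ univ) *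
      W (pN σ (Equiv.refl Empty) τ) (stN N (fun i => i.elim) (fun _ => 2))) = 1 := by
    intro τ
    have h2 : ncyc τ univ = 0 := by
      unfold ncyc
      simp
    have h3 : Gr (pN σ (Equiv.refl Empty) τ) (stN N (fun i => i.elim) (fun _ => 2)) = {∅} := by
      ext E
      rw [mem_Gr, Finset.mem_singleton]
      have hnone : ∀ v : N ⊕ (Empty ⊕ Fin 0),
          stN N (fun i : Empty => i.elim) (fun _ => 2) v = none := by
        rintro (i | i | i)
        · rfl
        · exact i.elim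
        · exact i.elim0
      constructor
      · rintro ⟨-, -, h, -⟩
        rw [Finset.eq_empty_iff_forall_notMem]
        intro e he
        induction e using Sym2.ind with
        | _ u v => exact h u v he (hnone u) (hnone v)
      · rintro rfl
        refine ⟨by simp, by simp, by simp, ?_⟩
        intro v k hk
        rw [hnone v] at hk
        cases hk
    unfold W
    rw [h2, h3]
    simp
  simp_rw [h1]
  simp

end

theorem Phi_eq (hCE : TaskCycleExtract) (hA : TaskAlgebra) (σ : Perm N) :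
    Phi σ = expS (L (fixc σ)) := by
  refine hA (fixc σ) (Phi σ) (fun b => if h : b ≠ 0 then @T1 N _ σ b ⟨h⟩ else 0)
    (fun b => if h : b ≠ 0 then @T2 N _ σ b ⟨h⟩ else 0)
    (fun b => if h : b ≠ 0 then @Uu N _ σ b ⟨h⟩ else 0) (rel0 σ) ?_ ?_ ?_ ?_
  · intro b hb
    have h0 : b ≠ 0 := by omega
    have : NeZero b := ⟨h0⟩
    simp only [dif_pos h0]
    exact rel1 σ hCE b
  · intro b hb
    have h0 : b ≠ 0 := by omega
    have : NeZero b := ⟨h0⟩
    simp only [dif_pos h0]
    exact rel2 σ hCE b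
  · intro a ha
    have h0 : a ≠ 0 := by omega
    have h2 : 2 * a ≠ 0 := by omega
    have : NeZero a := ⟨h0⟩
    have : NeZero (2 * a) := ⟨h2⟩
    simp only [dif_pos h0, dif_pos h2]
    exact rel3 σ hCE a
  · intro m
    rw [rel4 σ m, ← Finset.sum_neg_distrib]
    apply Finset.sum_congr rfl
    intro a ha
    rw [Finset.mem_Icc] at ha
    have h0 : a ≠ 0 := by omega
    have : NeZero a := ⟨h0⟩
    simp only [dif_pos h0]
    rw [Pf_eq σ hCE a, map_neg, yy, PowerSeries.coeff_X_pow_mul', if_pos ha.2]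
    rfl

end Pool.Agent.H958R4
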