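import Pool.Agent.H958R4.G7

namespace Pool.Agent.H958R4

open Equiv Finset Function
open scoped Classical

set_option linter.unusedSectionVars false
set_option linter.unusedSimpArgs false

variable {N X V V' : Type} [Fintype N] [Fintype X] [Fintype V] [Fintype V']

theorem mem_InvE {α : Perm V} {E : Finset (Sym2 V)} :
    E ∈ InvE α ↔ (∀ e ∈ E, ¬ e.IsDiag) ∧ (∀ e, e ∈ E ↔ Sym2.map α e ∈ E) := by
  simp [InvE]

/-- the `α`-invariant graphs in which all vertices of `Y` have degree 2 -/
noncomputable def Fs (α : Perm V) (Y : Finset V) : Polynomial ℚ :=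
  ∑ E ∈ (InvE α).filter (fun E => ∀ v ∈ Y, deg E v = 2), Polynomial.X ^ E.card

theorem mem_map_sym2 (ι : V ↪ V') (E : Finset (Sym2 V)) (e : Sym2 V) :
    Sym2.map ι e ∈ E.map ι.sym2Map ↔ e ∈ E := by
  rw [mem_sym2Map]
  constructor
  · rintro ⟨f, hf, h⟩
    rwa [← Sym2.map.injective ι.injective h]
  · intro h
    exact ⟨e, h, rfl⟩

theorem sym2_map_symm (e : V ≃ V') (f : Sym2 V') : Sym2.map e (Sym2.map e.symm f) = f := by
  rw [Sym2.map_map]
  simp

theorem InvE_map (e : V ≃ V') (α : Perm V) (E : Finset (Sym2 V)) :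
    E.map e.toEmbedding.sym2Map ∈ InvE (e.permCongr α) ↔ E ∈ InvE α := by
  have hm : ∀ f : Sym2 V, Sym2.map (e.permCongr α) (Sym2.map e.toEmbedding f)
      = Sym2.map e.toEmbedding (Sym2.map α f) := by
    intro f
    rw [Sym2.map_map, Sym2.map_map]
    apply Sym2.map_congr
    intro x _
    simp [Equiv.permCongr_apply]
  rw [mem_InvE, mem_InvE]
  constructor
  · rintro ⟨h1, h2⟩
    refine ⟨?_, ?_⟩
    · intro f hf
      have := h1 (Sym2.map e.toEmbedding f) ((mem_map_sym2 _ _ _).2 hf)
      rwa [Sym2.isDiag_map e.toEmbedding.injective] at this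
    · intro f
      have := h2 (Sym2.map e.toEmbedding f)
      rwa [hm, mem_map_sym2, mem_map_sym2] at this
  · rintro ⟨h1, h2⟩
    refine ⟨?_, ?_⟩
    · intro f hf
      obtain ⟨g, hg, rfl⟩ := mem_sym2Map.1 hf
      rw [Sym2.isDiag_map e.toEmbedding.injective]
      exact h1 g hg
    · intro f
      have hf : Sym2.map e.toEmbedding (Sym2.map e.symm f) = f := sym2_map_symm e f
      rw [← hf, hm, mem_map_sym2, mem_map_sym2]
      exact h2 _

theorem Fs_inv (e : V ≃ V') (α : Perm V) (Y : Finset V) :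
    Fs (e.permCongr α) (Y.map e.toEmbedding) = Fs α Y := by
  unfold Fs
  symm
  refine Finset.sum_nbij (fun E => E.map e.toEmbedding.sym2Map) ?_ ?_ ?_ ?_
  · intro E hE
    rw [Finset.mem_filter] at hE ⊢
    refine ⟨(InvE_map e α E).2 hE.1, ?_⟩
    intro v hv
    obtain ⟨w, hw, rfl⟩ := Finset.mem_map.1 hv
    rw [deg_map]
    exact hE.2 w hw
  · intro E _ F _ h
    exact Finset.map_injective _ h
  · intro E' hE'
    rw [Finset.mem_coe, Finset.mem_filter] at hE'
    have h1 : (E'.map e.symm.toEmbedding.sym2Map).map e.toEmbedding.sym2Map = E' := by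
      ext f
      have hf : Sym2.map e.toEmbedding (Sym2.map e.symm f) = f := sym2_map_symm e f
      rw [← hf, mem_map_sym2, hf]
      exact mem_map_sym2 e.symm.toEmbedding E' f
    refine ⟨E'.map e.symm.toEmbedding.sym2Map, ?_, h1⟩
    rw [Finset.mem_coe, Finset.mem_filter]
    refine ⟨?_, ?_⟩
    · rw [← InvE_map e, h1]
      exact hE'.1
    · intro v hv
      rw [← deg_map e.toEmbedding, h1]
      exact hE'.2 _ (Finset.mem_map.2 ⟨v, hv, rfl⟩)
  · intro E _
    rw [Finset.card_map]

theorem Fs_prod_gen (ι : N ↪ V) (κ : X ↪ V) (hcov : ∀ v, v ∈ Set.range ι ∨ v ∈ Set.range κ)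
    (hne : ∀ a x, ι a ≠ κ x) (α : Perm V) (σ : Perm N) (hα : ∀ a, α (ι a) = ι (σ a))
    (st : V → Option ℤ) (h1 : ∀ a, st (ι a) = none) (h2 : ∀ x, st (κ x) = some 2) :
    Fs α ((univ : Finset X).map κ)
      = (∑ E ∈ InvE σ, (Polynomial.X : Polynomial ℚ) ^ E.card) * W α st := by
  have hm : ∀ f : Sym2 N, Sym2.map α (Sym2.map ι f) = Sym2.map ι (Sym2.map σ f) := by
    intro f
    rw [Sym2.map_map, Sym2.map_map]
    apply Sym2.map_congr
    intro x _
    exact hα x
  have hr : ∀ e : Sym2 V, (∀ f : Sym2 N, Sym2.map ι f ≠ e) ↔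
      (∀ f : Sym2 N, Sym2.map ι f ≠ Sym2.map α e) := by
    intro e
    constructor
    · intro h f hf
      apply h (Sym2.map σ.symm f)
      apply Sym2.map.injective α.injective
      rw [← hf, hm, sym2_map_symm]
    · intro h f hf
      apply h (Sym2.map σ f)
      rw [← hf, hm]
  have hx : ∀ (x : X) (e : Sym2 V), κ x ∈ e → ∀ f : Sym2 N, Sym2.map ι f ≠ e := by
    rintro x e he f rfl
    obtain ⟨a, -, ha⟩ := Sym2.mem_map.1 he
    exact hne a x ha
  have hnone : ∀ v, st v = none → ∃ a, ι a = v := by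
    intro v hv
    rcases hcov v with h | ⟨x, rfl⟩
    · exact h
    · rw [h2] at hv
      cases hv
  unfold Fs W
  rw [Finset.sum_mul_sum, ← Finset.sum_product']
  symm
  refine Finset.sum_nbij' (fun p => p.1.map ι.sym2Map ∪ p.2)
    (fun E => (univ.filter (fun e => Sym2.map ι e ∈ E),
      E.filter (fun e => ∀ f : Sym2 N, Sym2.map ι f ≠ e))) ?_ ?_ ?_ ?_ ?_
  · rintro ⟨E1, E2⟩ hE
    rw [Finset.mem_product] at hE
    obtain ⟨hE1, hE2⟩ := hE
    dsimp only at hE1 hE2 ⊢
    rw [mem_InvE] at hE1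
    rw [mem_Gr] at hE2
    rw [Finset.mem_filter, mem_InvE]
    obtain ⟨a1, a2⟩ := hE1
    obtain ⟨b1, b2, b3, b4⟩ := hE2
    have hdis : Disjoint (E1.map ι.sym2Map) E2 := by
      rw [Finset.disjoint_left]
      intro e he he2
      obtain ⟨f, -, rfl⟩ := mem_sym2Map.1 he
      induction f using Sym2.ind with
      | _ u v => exact b3 _ _ he2 (h1 u) (h1 v)
    refine ⟨⟨?_, ?_⟩, ?_⟩
    · intro e he
      rcases Finset.mem_union.1 he with h | h
      · obtain ⟨f, hf, rfl⟩ := mem_sym2Map.1 h
        rw [Sym2.isDiag_map ι.injective]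
        exact a1 f hf
      · exact b1 e h
    · intro e
      rw [Finset.mem_union, Finset.mem_union, ← b2 e]
      by_cases hre : ∀ f : Sym2 N, Sym2.map ι f ≠ e
      · have h1 : e ∉ E1.map ι.sym2Map := by
          intro h
          obtain ⟨f, -, hf⟩ := mem_sym2Map.1 h
          exact hre f hf
        have h2 : Sym2.map α e ∉ E1.map ι.sym2Map := by
          intro h
          obtain ⟨f, -, hf⟩ := mem_sym2Map.1 h
          exact (hr e).1 hre f hf
        simp only [h1, h2, false_or]
      · push Not at hre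
        obtain ⟨f, rfl⟩ := hre
        rw [hm, mem_map_sym2, mem_map_sym2, ← a2]
    · intro v hv
      obtain ⟨x, -, rfl⟩ := Finset.mem_map.1 hv
      rw [deg_union hdis, deg_map_notin, zero_add]
      · exact_mod_cast b4 (κ x) 2 (h2 x)
      · rintro ⟨a, ha⟩
        exact hne a x ha
  · intro E hE
    rw [Finset.mem_filter, mem_InvE] at hE
    obtain ⟨⟨a1, a2⟩, a3⟩ := hE
    rw [Finset.mem_product]
    dsimp only
    rw [mem_InvE, mem_Gr]
    refine ⟨⟨?_, ?_⟩, ?_, ?_, ?_, ?_⟩
    · intro e he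
      have := a1 _ (Finset.mem_filter.1 he).2
      rwa [Sym2.isDiag_map ι.injective] at this
    · intro e
      simp only [Finset.mem_filter, Finset.mem_univ, true_and]
      rw [← hm, ← a2]
    · intro e he
      exact a1 e (Finset.mem_filter.1 he).1
    · intro e
      rw [Finset.mem_filter, Finset.mem_filter, ← a2, ← hr]
    · intro u v huv hu hv
      rw [Finset.mem_filter] at huv
      obtain ⟨a, rfl⟩ := hnone u hu
      obtain ⟨b, rfl⟩ := hnone v hv
      exact huv.2 s(a, b) rfl
    · intro v k hk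
      rcases hcov v with ⟨a, rfl⟩ | ⟨x, rfl⟩
      · rw [h1] at hk
        cases hk
      · have hk2 : k = 2 := by
          rw [h2] at hk
          exact (Option.some.inj hk).symm
        subst hk2
        have h1 := a3 (κ x) (Finset.mem_map.2 ⟨x, Finset.mem_univ _, rfl⟩)
        have h2 : deg (E.filter fun e => ∀ f : Sym2 N, Sym2.map ι f ≠ e) (κ x)
            = deg E (κ x) := by
          unfold deg
          rw [Finset.filter_filter]
          congr 1
          apply Finset.filter_congr
          intro e _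
          constructor
          · exact fun h => h.2
          · exact fun h => ⟨hx x e h, h⟩
        rw [h2, h1]
        rfl
  · rintro ⟨E1, E2⟩ hE
    rw [Finset.mem_product] at hE
    obtain ⟨hE1, hE2⟩ := hE
    dsimp only at hE1 hE2 ⊢
    rw [mem_Gr] at hE2
    obtain ⟨b1, b2, b3, b4⟩ := hE2
    have hno : ∀ f : Sym2 N, Sym2.map ι f ∉ E2 := by
      intro f hf
      induction f using Sym2.ind with
      | _ u v => exact b3 _ _ hf (h1 u) (h1 v)
    ext e
    · simp only [Finset.mem_filter, Finset.mem_univ, true_and, Finset.mem_union, mem_map_sym2,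
        hno, or_false]
    · simp only [Finset.mem_filter, Finset.mem_union]
      constructor
      · rintro ⟨h | h, h2⟩
        · obtain ⟨f, -, hf⟩ := mem_sym2Map.1 h
          exact absurd hf (h2 f)
        · exact h
      · intro h
        refine ⟨Or.inr h, ?_⟩
        rintro f rfl
        exact hno f h
  · intro E hE
    dsimp only
    ext e
    rw [Finset.mem_union, Finset.mem_filter, mem_sym2Map]
    constructor
    · rintro (⟨f, hf, rfl⟩ | h)
      · exact (Finset.mem_filter.1 hf).2
      · exact h.1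
    · intro h
      by_cases hre : ∀ f : Sym2 N, Sym2.map ι f ≠ e
      · exact Or.inr ⟨h, hre⟩
      · push Not at hre
        obtain ⟨f, rfl⟩ := hre
        left
        exact ⟨f, by simpa using h, rfl⟩
  · rintro ⟨E1, E2⟩ hE
    rw [Finset.mem_product] at hE
    obtain ⟨hE1, hE2⟩ := hE
    dsimp only at hE1 hE2 ⊢
    rw [mem_Gr] at hE2
    have hdis : Disjoint (E1.map ι.sym2Map) E2 := by
      rw [Finset.disjoint_left]
      intro e he he2
      obtain ⟨f, -, rfl⟩ := mem_sym2Map.1 he
      induction f using Sym2.ind with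
      | _ u v => exact hE2.2.2.1 _ _ he2 (h1 u) (h1 v)
    rw [Finset.card_union_of_disjoint hdis, Finset.card_map, pow_add]

theorem Fs_prod (σ : Perm N) (τ : Perm X) :
    Fs (Equiv.sumCongr σ τ : Perm (N ⊕ X)) ((univ : Finset X).map ⟨Sum.inr, Sum.inr_injective⟩)
      = (∑ E ∈ InvE σ, (Polynomial.X : Polynomial ℚ) ^ E.card) *
        W (Equiv.sumCongr σ τ : Perm (N ⊕ X)) (Sum.elim (fun _ => none) (fun _ => some 2)) := by
  apply Fs_prod_gen ⟨Sum.inl, Sum.inl_injective⟩ ⟨Sum.inr, Sum.inr_injective⟩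
  · rintro (a | x)
    · exact Or.inl ⟨a, rfl⟩
    · exact Or.inr ⟨x, rfl⟩
  · intro a x h
    cases h
  · intro a
    rfl
  · intro a
    rfl
  · intro x
    rfl

theorem W_two (σ : Perm N) (τ : Perm X) :
    W (Equiv.sumCongr σ τ : Perm (N ⊕ X)) (Sum.elim (fun _ => none) (fun _ => some 2))
      = W (pN σ (Equiv.refl Empty) τ) (stN N (fun i => i.elim) fun _ => 2) := by
  symm
  apply W_transport (ι := ⟨fun v => match v with
    | Sum.inl i => Sum.inl i
    | Sum.inr a => Sum.inr (Sum.inr a), by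
      rintro (i | i) (k | k) h <;> simp_all⟩)
  · rintro (i | i) <;> rfl
  · rintro (i | i) <;> rfl
  · rintro (i | i | i) hv
    · exact absurd ⟨Sum.inl i, rfl⟩ hv
    · exact i.elim
    · exact absurd ⟨Sum.inr i, rfl⟩ hv

theorem ncyc_split (σ : Perm N) (τ : Perm X) :
    ncyc (Equiv.sumCongr σ τ : Perm (N ⊕ X))
      ((univ : Finset X).map ⟨Sum.inr, Sum.inr_injective⟩) = ncyc τ univ :=
  ncyc_map (β := τ) ⟨Sum.inr, Sum.inr_injective⟩ (fun _ => rfl) univ

theorem sieve (hS : TaskSieve) (α : Perm V) :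
    ∑ E ∈ (InvE α).filter (fun E => ∀ v, deg E v ≠ 2), (Polynomial.X : Polynomial ℚ) ^ E.card
      = ∑ Y ∈ univ.filter (fun Y : Finset V => Inv α Y), (-1) ^ (ncyc α Y) * Fs α Y := by
  have h1 : ∀ E ∈ InvE α, (if ∀ v, deg E v ≠ 2 then (Polynomial.X : Polynomial ℚ) ^ E.card else 0)
      = ∑ Y ∈ univ.filter (fun Y : Finset V => Inv α Y),
        if (∀ v ∈ Y, deg E v = 2) then (-1) ^ (ncyc α Y) * Polynomial.X ^ E.card else 0 := by
    intro E hE
    rw [mem_InvE] at hE
    have hD : Inv α (univ.filter fun v => deg E v = 2) := by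
      intro v
      simp only [Finset.mem_filter, Finset.mem_univ, true_and]
      rw [deg_inv hE.2]
    have h2 := hS V α _ hD
    rw [← Finset.sum_filter, Finset.filter_filter]
    have h3 : (univ.filter fun Y : Finset V => Inv α Y ∧ ∀ v ∈ Y, deg E v = 2)
        = univ.filter fun Y : Finset V => Y ⊆ (univ.filter fun v => deg E v = 2) ∧ Inv α Y := by
      apply Finset.filter_congr
      intro Y _
      rw [and_comm]
      apply and_congr_left
      intro _
      constructor
      · intro h v hv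
        simp [h v hv]
      · intro h v hv
        simpa using h hv
    rw [h3, ← Finset.sum_mul, h2]
    have h4 : (univ.filter fun v => deg E v = 2) = ∅ ↔ ∀ v, deg E v ≠ 2 := by
      rw [Finset.filter_eq_empty_iff]
      simp
    by_cases h5 : ∀ v, deg E v ≠ 2
    · rw [if_pos h5, if_pos (h4.2 h5), one_mul]
    · rw [if_neg h5, if_neg (fun h => h5 (h4.1 h)), zero_mul]
  rw [Finset.sum_filter, Finset.sum_congr rfl h1, Finset.sum_comm]
  apply Finset.sum_congr rfl
  intro Y _
  unfold Fs
  rw [← Finset.sum_filter, Finset.mul_sum]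

theorem coeff_Phi (σ : Perm N) (m : ℕ) :
    ∑ τ : Perm (Fin m), (-1 : Polynomial ℚ) ^ (ncyc τ univ) *
      W (pN σ (Equiv.refl Empty) τ) (stN N (fun i => i.elim) fun _ => 2)
      = (m.factorial : Polynomial ℚ) * PowerSeries.coeff m (Phi σ) := by
  simp only [Phi, Gf, gf, PowerSeries.coeff_mk]
  rw [← mul_assoc, ← Polynomial.C_eq_natCast, ← map_mul]
  have hf1 : (m.factorial : ℚ) ≠ 0 := by exact_mod_cast Nat.factorial_ne_zero _
  rw [one_div, mul_inv_cancel₀ hf1, map_one, one_mul]

/-- **Main theorem**, modulo the tasks -/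
theorem main (hA : TaskAlgebra) (hB1 : TaskCycleExtract) (hB2 : TaskSplit) (hC1 : TaskBurnside)
    (hC2 : TaskSieve) (hC3 : TaskPolya) (p q : ℕ) : (h p q : ℚ) = (closed p).coeff q := by
  have h1 : (p.factorial : ℚ) * h p q = (∑ α : Perm (Fin p), ∑ E ∈ (InvE α).filter
      (fun E => ∀ v, deg E v ≠ 2), (Polynomial.X : Polynomial ℚ) ^ E.card).coeff q := by
    rw [hC1 p q, Polynomial.finsetSum_coeff]
    apply Finset.sum_congr rfl
    intro α _
    rw [Polynomial.finsetSum_coeff]
    simp_rw [Polynomial.coeff_X_pow]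
    rw [Finset.sum_boole, Finset.filter_filter]
    congr 2
    apply Finset.filter_congr
    intro E _
    rw [and_comm]
    constructor
    · rintro ⟨a, b⟩
      exact ⟨a, b.symm⟩
    · rintro ⟨a, b⟩
      exact ⟨a, b.symm⟩
  have h2 : (∑ α : Perm (Fin p), ∑ E ∈ (InvE α).filter
      (fun E => ∀ v, deg E v ≠ 2), (Polynomial.X : Polynomial ℚ) ^ E.card)
      = (p.factorial : Polynomial ℚ) * closed p := by
    have h5 : ∀ α : Perm (Fin p), ∑ E ∈ (InvE α).filter (fun E => ∀ v, deg E v ≠ 2),
        (Polynomial.X : Polynomial ℚ) ^ E.card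
        = ∑ Y ∈ univ.filter (fun Y : Finset (Fin p) => Inv α Y),
          (-1) ^ (ncyc α Y) * Fs α Y := fun α => by convert sieve hC2 α
    rw [Finset.sum_congr rfl (fun α _ => h5 α)]
    have hsp := hB2 (fun V _ α Y => (-1) ^ (ncyc α Y) * Fs α Y) (by
      intro V V' _ _ e α Y
      rw [Fs_inv, ncyc_map (β := α) e.toEmbedding (fun x => by simp [Equiv.permCongr_apply])]) p
    refine Eq.trans ?_ (hsp.trans ?_)
    · rfl
    · unfold closed
      rw [Finset.mul_sum]
      apply Finset.sum_congr rfl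
      intro n hn
      rw [Finset.mem_range] at hn
      have hn' : n ≤ p := by omega
      have h3 : ∀ σ : Perm (Fin n), ∑ τ : Perm (Fin (p - n)),
          (-1) ^ (ncyc (Equiv.sumCongr σ τ : Perm (Fin n ⊕ Fin (p - n)))
            ((univ : Finset (Fin (p - n))).map ⟨Sum.inr, Sum.inr_injective⟩)) *
          Fs (Equiv.sumCongr σ τ : Perm (Fin n ⊕ Fin (p - n)))
            ((univ : Finset (Fin (p - n))).map ⟨Sum.inr, Sum.inr_injective⟩)
          = ((p - n).factorial : Polynomial ℚ) *
            (Z σ * PowerSeries.coeff (p - n) (expS (L (fixc σ)))) := by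
        intro σ
        rw [← Phi_eq hB1 hA σ, mul_left_comm, ← coeff_Phi, Finset.mul_sum]
        apply Finset.sum_congr rfl
        intro τ _
        rw [ncyc_split, Fs_prod, hC3, W_two]
        ring
      rw [Finset.sum_congr rfl (fun σ _ => h3 σ), ← Finset.mul_sum]
      rw [Polynomial.smul_eq_C_mul, ← mul_assoc, ← mul_assoc]
      congr 1
      rw [← Polynomial.C_eq_natCast, ← Polynomial.C_eq_natCast, ← Polynomial.C_eq_natCast,
        ← map_mul, ← map_mul]
      congr 1
      have hf1 : (n.factorial : ℚ) ≠ 0 := by exact_mod_cast Nat.factorial_ne_zero _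
      have h4 : ((p.choose n * n.factorial * (p - n).factorial : ℕ) : ℚ) = p.factorial := by
        rw [Nat.choose_mul_factorial_mul_factorial hn']
      push_cast at h4
      rw [← h4]
      field_simp
  rw [h2] at h1
  rw [← Polynomial.C_eq_natCast, Polynomial.coeff_C_mul] at h1
  have hf1 : (p.factorial : ℚ) ≠ 0 := by exact_mod_cast Nat.factorial_ne_zero _
  exact mul_left_cancel₀ hf1 h1

end Pool.Agent.H958R4
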